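import Pool.Agent.Y132.AH.HDefs

/-!
# Direct summands of the noncommutative motives of products of varieties: definitions
-/

open CategoryTheory AlgebraicGeometry

universe u

namespace Pool.Agent.X227.NP

open Pool.Agent.H914 Pool.Agent.H914.VarClass Pool.Agent.H914.VarClass.Obj
  Pool.Agent.H914.WeilCohomology Pool.Agent.Y132.AH

section Alg

variable {K A C : Type} [Field K] [Ring A] [Algebra K A] [Ring C] [Algebra K C]

/-- The sums of elements of the sets `Z j` and of their negatives. -/
def mixed (Z : ℕ → Set A) : AddSubgroup A := AddSubgroup.closure (⋃ j, Z j)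

/-- `e` is a sum of elements of the sets `Z j`, and the operator `y ↦ s (e * p y)` is idempotent. -/
def IsProj (p : A →ₐ[K] C) (s : C →ₗ[K] A) (Z : ℕ → Set C) (e : C) : Prop :=
  e ∈ mixed Z ∧ ∀ y, s (e * p (s (e * p y))) = s (e * p y)

/-- If `y` is a sum of elements of the sets `Z j`, fixed by `E` and orthogonal to all such sums, then
`y = 0`. -/
def NondegOn (tr : A →ₗ[K] K) (Z : ℕ → Set A) (E : A → A) : Prop :=
  ∀ y ∈ mixed Z, E y = y → (∀ w ∈ mixed Z, tr (y * w) = 0) → y = 0

/-- If `y` is a sum of elements of the sets `H j` and fixed by `E` then it is a sum of elements of the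
sets `Z j`. -/
def CoveredOn (H Z : ℕ → Set A) (E : A → A) : Prop := ∀ y ∈ mixed H, E y = y → y ∈ mixed Z

end Alg

variable {k : Type u} [Field k] {𝒱 : VarClass k} {ops : CycleOps 𝒱} {ι : Type}

/-- The morphism `id × f` between the products over a list. -/
noncomputable def listMap (X : ι → 𝒱.Obj) {Z Z' : 𝒱.Obj} (f : Z ⟶ Z') :
    ∀ L : List ι, prodList X Z L ⟶ prodList X Z' L
  | [] => f
  | i :: L => lift (fst (X i) (prodList X Z L)) (snd (X i) (prodList X Z L) ≫ listMap X f L)

/-- The projection to the last factor `Z`. -/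
noncomputable def listSnd (X : ι → 𝒱.Obj) (Z : 𝒱.Obj) : ∀ L : List ι, prodList X Z L ⟶ Z
  | [] => 𝟙 Z
  | i :: L => snd (X i) (prodList X Z L) ≫ listSnd X Z L

variable {W : WeilCohomology.{u, 0} ops}

/-- `e` is the class of a cycle of mixed codimension with rational coefficients on `Z × Z` whose
operator `y ↦ pr_2_* (e * pr_1^* y)` on the cohomology of `Z` is idempotent. -/
def Projector (Z : 𝒱.Obj) (e : W.H (Z.prod Z)) : Prop :=
  IsProj (W.map (fst Z Z)) (W.push (snd Z Z)) (algClasses W (Z.prod Z)) e

/-- The operator `y ↦ pr_2_* (e * pr_1^* y)` on the cohomology of `Z`. -/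
noncomputable def selfOp {Z : 𝒱.Obj} (e : W.H (Z.prod Z)) (y : W.H Z) : W.H Z :=
  W.push (snd Z Z) (e * W.map (fst Z Z) y)

/-- The operator of the correspondence `Δ × e` on the cohomology of the product `P × Z` over the
list: `y ↦ (id × pr_2)_* (pr^* e * (id × pr_1)^* y)`, where `pr : P × Z × Z → Z × Z`. -/
noncomputable def timesOp (X : ι → 𝒱.Obj) {Z : 𝒱.Obj} (e : W.H (Z.prod Z)) (L : List ι)
    (y : W.H (prodList X Z L)) : W.H (prodList X Z L) :=
  W.push (listMap X (snd Z Z) L)
    (W.map (listSnd X (Z.prod Z) L) e * W.map (listMap X (fst Z Z) L) y)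

/-- Homological and numerical equivalence coincide on the direct summand of the noncommutative motive
of `Y` which is cut out by the operator `E`: if the class of a cycle of mixed codimension with
rational coefficients is fixed by `E` and orthogonal to all such classes then it is zero. -/
def NCD (W : WeilCohomology.{u, 0} ops) (Y : 𝒱.Obj) (E : W.H Y → W.H Y) : Prop :=
  NondegOn (W.tr Y) (algClasses W Y) E

/-- **The noncommutative Hodge conjecture** for the direct summand of the noncommutative motive
of `Y` which is cut out by the operator `E`: each sum of Hodge classes (of degrees `2 j`, `j ≥ 0`) on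
`Y` which is fixed by `E` is the class of a cycle of mixed codimension with rational coefficients. -/
def NCHodge (Ψ : HodgeData W) (Y : 𝒱.Obj) (E : W.H Y → W.H Y) : Prop :=
  CoveredOn (fun j => {c | IsHodge Ψ Y j c}) (algClasses W Y) E

end Pool.Agent.X227.NP
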