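import Pool.Agent.Y132.AH.GDefs
import Pool.Agent.X227.NP.Defs

/-!
# Families of varieties, a special fibre, and the variational Hodge conjecture: definitions
-/

open CategoryTheory AlgebraicGeometry

universe u

namespace Pool.Agent.X227.NP

open Pool.Agent.H914 Pool.Agent.H914.VarClass Pool.Agent.H914.VarClass.Obj
  Pool.Agent.H914.WeilCohomology Pool.Agent.Y132.AH

section Alg

variable {K A B Γ : Type} [Field K] [Ring A] [Algebra K A] [Ring B] [Algebra K B] [Group Γ]

/-- The sets `P j` of elements of degree `2 j` contain the sets `Z j`, consist of elements which are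
fixed by all `γ σ`, and are closed under sums, rational multiples and products. -/
structure IsClsAlg (gr : ℕ → Submodule K A) (Z P : ℕ → Set A) (γ : RingAut K →* RingAut A) :
    Prop where
  cyc : ∀ j, Z j ⊆ P j
  deg : ∀ j, P j ⊆ gr (2 * j)
  rat : ∀ j, ∀ a ∈ P j, ∀ σ, γ σ a = a
  add : ∀ j, ∀ a ∈ P j, ∀ b ∈ P j, a + b ∈ P j
  smul : ∀ (q : ℚ) j, ∀ a ∈ P j, (q : K) • a ∈ P j
  mul : ∀ i j, ∀ a ∈ P i, ∀ b ∈ P j, a * b ∈ P (i + j)

/-- The data of the cohomology `A` of the geometric generic member of a family: the action of the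
automorphisms of the coefficient field by `1 ⊗ σ` (the rational classes are the ones which are
fixed), and the sets `special j` of the rational classes of degree `2 j` which are carried by
parallel transport to classes of algebraic cycles on the special member. -/
structure FamAlg (gr : ℕ → Submodule K A) (tr : A →ₗ[K] K) (Z : ℕ → Set A) where
  /-- the action of the automorphisms of the coefficient field -/
  coeff : RingAut K →* RingAut A
  /-- the classes which are algebraic on the special member -/
  special : ℕ → Set A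
  isCoeffAct : IsCoeffAct gr tr Z coeff
  isCls : IsClsAlg gr Z special coeff

/-- `f` maps `P j` to `P' j`, and `g` maps `P' j` to `P l` if `l + n' = j + n`. -/
def Compat (P : ℕ → Set A) (P' : ℕ → Set B) (n n' : ℕ) (f : A →ₐ[K] B) (g : B →ₗ[K] A) : Prop :=
  (∀ j, ∀ a ∈ P j, f a ∈ P' j) ∧ ∀ j l, l + n' = j + n → ∀ b ∈ P' j, g b ∈ P l

/-- The elements of `P j` on which a subgroup of finite index acts by `χ ^ j`. -/
def flatIn (χ : Γ →* Kˣ) (ρ : Γ →* (A ≃ₐ[K] A)) (P : ℕ → Set A) (j : ℕ) : Set A :=
  {c | c ∈ P j ∧ ∃ Δ : Subgroup Γ, Δ.FiniteIndex ∧ ∀ g ∈ Δ, ρ g c = (χ g : K) ^ j • c}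

/-- `c` is an eigenvalue of `g` on the subspace `U`. -/
def EigOn (ρ : Γ →* (A ≃ₐ[K] A)) (g : Γ) (U : Submodule K A) (c : K) : Prop :=
  ∃ x ∈ U, x ≠ 0 ∧ ρ g x = c • x

/-- For some element `g` of the group with two eigenvalues `a` and `b` on `T`: `B` is generated by
stable subspaces on which `a b / χ(g) ^ n` is not the quotient of two eigenvalues of `g`. -/
def RatioApart {χ : Γ →* Kˣ} {gr : ℕ → Submodule K A} {n : ℕ} {tr : A →ₗ[K] K} {C : ℕ → Set A}
    {gr' : ℕ → Submodule K B} {n' : ℕ} {tr' : B →ₗ[K] K} {C' : ℕ → Set B}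
    (G : GalAlg Γ χ gr n tr C) (T : Submodule K A) (G' : GalAlg Γ χ gr' n' tr' C') : Prop :=
  ∃ (g : Γ) (a b lam : K), (χ g : K) ^ n * lam = a * b ∧ EigOn G.act g T a ∧
    EigOn G.act g T b ∧ ∃ 𝒰 : Set (Submodule K B), StabGen (fun γ x => G'.act γ x) 𝒰 ∧
      ∀ U ∈ 𝒰, ∀ β, EigOn G'.act g U (lam * β) → ¬EigOn G'.act g U β

/-- The operator `y ↦ s (e * p y)`. -/
def corrAct {C : Type} [Ring C] [Algebra K C] (p : A →ₐ[K] C) (s : C →ₗ[K] A) (e : C) (y : A) : A :=
  s (e * p y)

end Alg

variable {k : Type u} [Field k] {𝒱 : VarClass k} {ops : CycleOps 𝒱}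
  {W : WeilCohomology.{u, 0} ops} {Γ : Type} [Group Γ]

/-- The operator `y ↦ pr_2_* (e * pr_1^* y)` on the cohomology of `Z`. -/
noncomputable def baseOp {Z : 𝒱.Obj} (e : W.H (Z.prod Z)) : W.H Z → W.H Z :=
  corrAct (W.map (fst Z Z)) (W.push (snd Z Z)) e

/-- The operator of the correspondence `Δ × e` on the cohomology of the product `P × Z` over the
list: `y ↦ (id × pr_2)_* (pr^* e * (id × pr_1)^* y)`, where `pr : P × Z × Z → Z × Z`. -/
noncomputable def overOp {ι : Type} (X : ι → 𝒱.Obj) {Z : 𝒱.Obj} (e : W.H (Z.prod Z)) (L : List ι) :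
    W.H (prodList X Z L) → W.H (prodList X Z L) :=
  corrAct (W.map (listMap X (fst Z Z) L)) (W.push (listMap X (snd Z Z) L))
    (W.map (listSnd X (Z.prod Z) L) e)

/-- Families over a base, given by their geometric generic members, with a special member: rational
structures and classes which are algebraic on the special member, compatible with pull-backs and
push-forwards. -/
structure FamData (W : WeilCohomology.{u, 0} ops) where
  /-- the data for `X` -/
  on : ∀ X : 𝒱.Obj, FamAlg (W.gr X) (W.tr X) (algClasses W X)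
  compat : ∀ {X Y : 𝒱.Obj} (f : X ⟶ Y), Compat (on Y).special (on X).special Y.dim X.dim
    (W.map f) (W.push f)

/-- `X` is separated from `Z` by one element of the group. -/
def MonApart (G : GaloisData W Γ) (X Z : 𝒱.Obj) : Prop :=
  RatioApart (G.on X) (transcendental W X) (G.on Z)

/-- **The noncommutative variational Hodge conjecture** (for a given special member) for the family of
direct summands of the noncommutative motives of the members of `Y` which is cut out by the
operator `E`: let `y` be a sum of classes of degrees `2 j` which are flat (invariant under a subgroup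
of finite index, up to the character `χ ^ j`) and algebraic on the special member; if `y` is fixed
by `E` then it is the class of a cycle of mixed codimension with rational coefficients. -/
def NCVar (D : FamData W) (G : GaloisData W Γ) (Y : 𝒱.Obj) (E : W.H Y → W.H Y) : Prop :=
  CoveredOn (flatIn G.χ (G.on Y).act (D.on Y).special) (algClasses W Y) E

end Pool.Agent.X227.NP
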