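import Pool.Agent.Y132.AH.GDefs
import Pool.Agent.X227.NP.FDefs

/-!
# Absolute Hodge classes on direct summands: definitions
-/

open CategoryTheory AlgebraicGeometry

universe u

namespace Pool.Agent.X227.NP

open Pool.Agent.H914 Pool.Agent.H914.VarClass Pool.Agent.H914.VarClass.Obj
  Pool.Agent.H914.WeilCohomology Pool.Agent.Y132.AH

section Alg

variable {K A C : Type} [Field K] [Ring A] [Algebra K A] [Ring C] [Algebra K C]

/-- The operator `y ↦ s (e * p y)` is idempotent. -/
def IdemOp (p : A →ₐ[K] C) (s : C →ₗ[K] A) (e : C) : Prop :=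
  ∀ y, s (e * p (s (e * p y))) = s (e * p y)

/-- All elements which satisfy `P j` for some `j` and are fixed by `F` satisfy `Q j`. -/
def FixedIn {R : Type} (P Q : ℕ → R → Prop) (F : R → R) : Prop := ∀ j c, P j c → F c = c → Q j c

end Alg

variable {k : Type u} [Field k] {𝒱 : VarClass k} {ops : CycleOps 𝒱}
  {W : WeilCohomology.{u, 0} ops}

/-- `e` is an absolute Hodge class of degree `2 dim Z` on `Z × Z` and its operator is idempotent:
`(Z, e)` is a motive for absolute Hodge cycles. -/
def AHMotive (Ψ : HodgeData W) (E : Embeddings W) (Z : 𝒱.Obj) (e : W.H (Z.prod Z)) : Prop :=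
  IsAbsHodge Ψ E (Z.prod Z) Z.dim e ∧ IdemOp (W.map (fst Z Z)) (W.push (snd Z Z)) e

/-- **Deligne's conjecture** for the direct summand of `Y` which is cut out by the operator `F`: all
Hodge classes of degree `2 j` on `Y` which are fixed by `F` are absolute Hodge classes. -/
def AbsOn (Ψ : HodgeData W) (E : Embeddings W) (Y : 𝒱.Obj) (F : W.H Y → W.H Y) : Prop :=
  FixedIn (IsHodge Ψ Y) (IsAbsHodge Ψ E Y) F

end Pool.Agent.X227.NP
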