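import Pool.Agent.X227.NP.Grad
import Pool.Agent.X227.NP.ARDefs
import Pool.Agent.X227.MM.Abs

/-!
# Absolute Hodge classes on products with motives
-/

open CategoryTheory AlgebraicGeometry
open Pool.Agent.Y132.EP (DG tow idm map_idm exm map_exm)

universe u

namespace Pool.Agent.X227.NP

open Pool.Agent.H914 Pool.Agent.H914.VarClass Pool.Agent.H914.VarClass.Obj
  Pool.Agent.H914.WeilCohomology Pool.Agent.Y132.AH Pool.Agent.X227.MS Pool.Agent.H281R3.HT
  Pool.Agent.W552 Pool.Agent.TH125.Gal Pool.Agent.Y132.AF Pool.Agent.X227.MM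

variable {k : Type u} [Field k] {𝒱 : VarClass k} {ops : CycleOps 𝒱} {ι : Type}
  {W : WeilCohomology.{u, 0} ops} (Ψ : HodgeData W) (E : Embeddings W)

theorem gcls_abs : GCls (W := W) (fun X j c => IsAbsHodge Ψ E X j c) where
  cyc _ _ _ hz := isAbs_cyc Ψ E hz
  add _ _ _ _ ha hb := isAbs_add Ψ E ha hb
  smul _ _ _ q ha := isAbs_smul Ψ E q ha
  mul _ _ _ _ _ ha hb := isAbs_mul Ψ E ha hb
  map f _ _ hb := isAbs_map Ψ E f hb
  push f _ _ _ hl ha := isAbs_push Ψ E f hl ha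
  gr _ _ _ ha := hodge_gr Ψ ha.1

theorem ar_list [IsAlgClosed W.K] (X : ι → 𝒱.Obj) {Z : 𝒱.Obj} {e : W.H (Z.prod Z)}
    (he : AHMotive Ψ E Z e) (L : List ι) :
    AbsOn Ψ E (prodList X Z L) (overOp X e L) ↔
      Sub (ofSys (gcls_hodge Ψ).sys) (ofSys (gcls_abs Ψ E).sys) (prodList X Z L)
        (listOp X (ncOp e) L) := by
  rw [overOp_eq X (hodge_gr Ψ he.1.1)]
  exact grad_iff (gcls_hodge Ψ) (gcls_abs Ψ E) (fun X => Ψ.coeff X)
    (fun X => (Ψ.isCoeffAct X).smul) (fun Y j y hy σ => hy.2 σ)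
    (fun Y j y hy σ => hy.1.2 σ) (fun Y j => isAbs_zero Ψ E Y j)
    (fun j c hc => gcls_over (gcls_hodge Ψ) X he.1.1 L hc)
    (idem_list X (fun y => he.2 y) L)

/-- **Deligne's conjecture on products with a motive.** -/
theorem ar_general [IsAlgClosed W.K] [DecidableEq ι] {X : ι → 𝒱.Obj} (Z : 𝒱.Obj)
    (hX : SpFamily Ψ X) :
    ∃ B : Finset ι, ∑ i ∈ B, trDim W (X i) ≤ totDim W Z ∧ (∀ i ∈ B, ¬TypeSep Ψ (X i) Z) ∧
      ∀ e : W.H (Z.prod Z), AHMotive Ψ E Z e → ∀ L : List ι,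
        (AbsOn Ψ E (prodList X Z L) (overOp X e L) ↔
          ∀ L' : List ι, L'.Sublist L → SmallHodge Ψ X Z B L' →
            AbsOn Ψ E (prodList X Z L') (overOp X e L')) := by
  obtain ⟨B, h1, h2, h3⟩ := hodge_sys Ψ Z hX
  refine ⟨B, h1, h2, fun e he L => ?_⟩
  have h4 := h3 (ofSys (gcls_hodge Ψ).sys) (ofSys (gcls_abs Ψ E).sys) (ncOp e) L
    fun Y F y hy => hodgeComp_span Ψ hy.1
  rw [ar_list Ψ E X he, h4]
  exact forall_congr' fun L' => forall_congr' fun _ => forall_congr' fun _ =>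
    (ar_list Ψ E X he L').symm

theorem ar_separated [IsAlgClosed W.K] {X : ι → 𝒱.Obj} (Z : 𝒱.Obj)
    (hX : SpFamily Ψ X) (hsep : ∀ i, TypeSep Ψ (X i) Z) (n : ℕ)
    (e : W.H ((powN Z n).prod (powN Z n))) (he : AHMotive Ψ E (powN Z n) e) (L : List ι) :
    AbsOn Ψ E (prodList X (powN Z n) L) (overOp X e L) ↔
      AbsOn Ψ E (powN Z n) (baseOp e) := by
  classical
  have h0 : overOp X e [] = baseOp e := by
    funext y
    change W.push (snd (powN Z n) (powN Z n)) (W.map (𝟙 ((powN Z n).prod (powN Z n))) e *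
      W.map (fst (powN Z n) (powN Z n)) y) = _
    rw [W.map_id]
    rfl
  obtain ⟨B, -, h2, h3⟩ := ar_general Ψ E (powN Z n) hX
  constructor
  · intro h
    rw [ar_list Ψ E X he] at h
    have h5 := sys_sublist (ℳ := ofSys (gcls_hodge Ψ).sys) (𝒩 := ofSys (gcls_abs Ψ E).sys)
      (Z := powN Z n) (E := ncOp e) (fun i => (hX.var i).homEqNum) (sp_one hX)
      (List.nil_sublist L) h
    have h6 := (ar_list Ψ E X he []).2 h5
    rwa [h0] at h6
  · intro h
    rw [h3 e he L]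
    intro L' _ hs
    have h5 : L' = [] := by
      rw [List.eq_nil_iff_forall_not_mem]
      exact fun i hi => h2 i (hs.mem i hi) (typeSep_pow Ψ (hsep i) n)
    rw [h5, h0]
    exact h

end Pool.Agent.X227.NP
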