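import Pool.Agent.X227.NP.HV

/-!
# Homological and numerical equivalence on products, Hodge theoretic version
-/

open CategoryTheory AlgebraicGeometry

universe u

namespace Pool.Agent.X227.NP

open Pool.Agent.H914 Pool.Agent.H914.VarClass Pool.Agent.H914.VarClass.Obj
  Pool.Agent.H914.WeilCohomology Pool.Agent.Y132.AH Pool.Agent.X227.MS Pool.Agent.H281R3.HT
  Pool.Agent.W552 Pool.Agent.TH125.Gal Pool.Agent.Y132.AF Pool.Agent.X227.MM

variable {k : Type u} [Field k] {𝒱 : VarClass k} {ops : CycleOps 𝒱} {ι : Type}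
  {W : WeilCohomology.{u, 0} ops} (Ψ : HodgeData W)

/-- **Finitely many products suffice**, Hodge theoretic version. -/
theorem dh_general [IsAlgClosed W.K] [DecidableEq ι] {X : ι → 𝒱.Obj} (Z : 𝒱.Obj)
    (hX : SpFamily Ψ X) :
    ∃ B : Finset ι, ∑ i ∈ B, trDim W (X i) ≤ totDim W Z ∧ (∀ i ∈ B, ¬TypeSep Ψ (X i) Z) ∧
      ∀ L : List ι, HomEqNum W (prodList X Z L) ↔
        ∀ L' : List ι, L'.Sublist L → SmallHodge Ψ X Z B L' → HomEqNum W (prodList X Z L') := by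
  obtain ⟨B, h1, h2, h3⟩ := hodge_sys Ψ Z hX
  refine ⟨B, h1, h2, fun L => ?_⟩
  have h4 := h3 (radSys W) (botSys W) LinearMap.id L fun Y E y hy => hodgeComp_alg Ψ hy.1.1
  simp only [listOp_id, sub_rad_id] at h4
  exact h4

theorem dh_key [IsAlgClosed W.K] {X : ι → 𝒱.Obj} (Z : 𝒱.Obj)
    (hX : SpFamily Ψ X) (hsep : ∀ i, TypeSep Ψ (X i) Z) (L : List ι) :
    HomEqNum W (prodList X Z L) ↔ HomEqNum W Z := by
  classical
  obtain ⟨B, -, h2, h3⟩ := dh_general Ψ Z hX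
  refine ⟨fun h => d_sub (fun i => (hX.var i).homEqNum) (sp_one hX)
    (List.nil_sublist _) h, fun h => (h3 L).2 fun L' _ hs => ?_⟩
  have h5 : L' = [] := by
    rw [List.eq_nil_iff_forall_not_mem]
    exact fun i hi => h2 i (hs.mem i hi) (hsep i)
  rw [h5]
  exact h

theorem dh_sep [IsAlgClosed W.K] {X : ι → 𝒱.Obj} (Z : 𝒱.Obj)
    (hX : SpFamily Ψ X) (hsep : ∀ i, TypeSep Ψ (X i) Z)
    (L : List ι) (n : ℕ) : HomEqNum W (powN (prodList X Z L) n) ↔ HomEqNum W (powN Z n) := by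
  obtain ⟨L', ⟨e⟩⟩ := iso_pow X Z L n
  have h3 := dh_key Ψ (powN Z n) hX (fun i => typeSep_pow Ψ (hsep i) n) L'
  rw [← h3]
  exact ⟨fun h => hom_iso e h, fun h => hom_iso e.symm h⟩

end Pool.Agent.X227.NP

namespace Pool.Agent.X227.NP

open Pool.Agent.H914 Pool.Agent.H914.VarClass Pool.Agent.H914.VarClass.Obj
  Pool.Agent.H914.WeilCohomology Pool.Agent.Y132.AH Pool.Agent.X227.MS Pool.Agent.H281R3.HT
  Pool.Agent.W552 Pool.Agent.TH125.Gal Pool.Agent.Y132.AF Pool.Agent.X227.MM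

variable {k : Type u} [Field k] {𝒱 : VarClass k} {ops : CycleOps 𝒱} {ι : Type}
  {W : WeilCohomology.{u, 0} ops} (Ψ : HodgeData W)

/-- The width of the cohomology of `Z` is at most `dim Z`. -/
theorem width_dim (Z : 𝒱.Obj) : WidthOn (Ψ.on Z) Z.dim := by
  refine ⟨{U | ∃ m, U = W.gr Z m}, ⟨?_, ?_⟩, ?_⟩
  · rintro _ ⟨m, rfl⟩ g x hx
    have h1 := (actv_galois Ψ Z).gr_mem (FreeGroup.of g) m x hx
    have h2 : ract Ψ Z (FreeGroup.of g) x = conjTorus (Ψ.on Z) g x := ract_of Ψ Z g x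
    rw [← h2]
    exact h1
  · rw [eq_top_iff]
    intro x _
    refine gr_induction (W.isInternal Z) (p := fun x => x ∈ Algebra.adjoin W.K
      (⋃ U ∈ {U | ∃ m, U = W.gr Z m}, (U : Set (W.H Z)))) ?_ ?_ x
    · intro j b hb
      exact Algebra.subset_adjoin (Set.mem_iUnion₂.2 ⟨W.gr Z j, ⟨j, rfl⟩, hb⟩)
    · intro b b' hb hb'
      exact Subalgebra.add_mem _ hb hb'
  · rintro _ ⟨m, rfl⟩
    refine ⟨⟨m, le_rfl⟩, ?_⟩
    rintro p q p' q' ⟨x, -, hx, hx0⟩ -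
    have h1 : p ≤ Z.dim := by
      by_contra hcon
      have h8 : (Ψ.on Z).hodge (p, q) = ⊥ := (Ψ.isHodgeDec Z).eq_bot p q (Or.inl (by omega))
      rw [h8] at hx
      exact hx0 ((Submodule.mem_bot _).1 hx)
    omega

theorem dh_level [IsAlgClosed W.K] {X : ι → 𝒱.Obj} (Z : 𝒱.Obj) (hX : SpFamily Ψ X)
    (hsep : ∀ i, (∃ p q, TrType Ψ (X i) p q ∧ q + Z.dim < p) ∨ ∀ m, Pool.Agent.Y132.AH.betti W Z m < trDim W (X i))
    (hZ : HomEqNum W Z) (L : List ι) : HomEqNum W (prodList X Z L) := by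
  classical
  obtain ⟨B, -, h2, h3⟩ := dh_general Ψ Z hX
  rw [h3]
  intro L' _ hs
  have h5 : L' = [] := by
    rw [List.eq_nil_iff_forall_not_mem]
    intro i hi
    rcases hsep i with h | h
    · exact h2 i (hs.mem i hi) ⟨Z.dim, width_dim Ψ Z, h⟩
    · obtain ⟨m, -, -, h4, -⟩ := hs.degree
      have h6 : trDim W (X i) ≤ ∑ i ∈ L'.toFinset, trDim W (X i) :=
        Finset.single_le_sum (f := fun i => trDim W (X i)) (fun _ _ => Nat.zero_le _)
          (List.mem_toFinset.2 hi)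
      have h7 := h m
      omega
  rw [h5]
  exact hZ

end Pool.Agent.X227.NP
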