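import Pool.Agent.X227.MS.NH
import Pool.Agent.X227.NP.Defs

/-!
# Direct summands of the noncommutative motives of products of varieties
-/

open CategoryTheory AlgebraicGeometry
open Pool.Agent.Y132.EP (DG tow idm map_idm exm map_exm)

universe u

namespace Pool.Agent.X227.NP

open Pool.Agent.H914 Pool.Agent.H914.VarClass Pool.Agent.H914.VarClass.Obj
  Pool.Agent.H914.WeilCohomology Pool.Agent.Y132.AH Pool.Agent.X227.MS Pool.Agent.H281R3.HT
  Pool.Agent.W552 Pool.Agent.TH125.Gal Pool.Agent.Y132.AF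

variable {k : Type u} [Field k] {𝒱 : VarClass k} {ops : CycleOps 𝒱} {ι : Type}
  {W : WeilCohomology.{u, 0} ops}

theorem projector_iff {Z : 𝒱.Obj} {e : W.H (Z.prod Z)} (h : Projector Z e) :
    IsProjector Z e := ⟨h.1, h.2⟩

theorem timesOp_eq (X : ι → 𝒱.Obj) {Z : 𝒱.Obj} {e : W.H (Z.prod Z)} (he : e ∈ cyc W (Z.prod Z))
    (L : List ι) (y : W.H (prodList X Z L)) :
    timesOp X e L y = listOp X (ncOp e) L y := by
  induction L with
  | nil =>
    change W.push (snd Z Z) (W.map (𝟙 (Z.prod Z)) e * W.map (fst Z Z) y) = _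
    rw [W.map_id]
    rfl
  | cons i L ih =>
    change W.push (idm (X i) (listMap X (snd Z Z) L))
      (W.map (snd (X i) (prodList X (Z.prod Z) L) ≫ listSnd X (Z.prod Z) L) e *
        W.map (idm (X i) (listMap X (fst Z Z) L)) y) = prodOp (X i) (listOp X (ncOp e) L) y
    rw [W.map_comp]
    refine kun_ext (L := fun y => W.push (Pool.Agent.Y132.EP.idm (X i) (listMap X (Obj.snd Z Z) L))
      (W.map (Obj.snd (X i) (prodList X (Z.prod Z) L)) (W.map (listSnd X (Z.prod Z) L) e) *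
        W.map (Pool.Agent.Y132.EP.idm (X i) (listMap X (Obj.fst Z Z) L)) y))
      (L' := fun y => prodOp (X i) (listOp X (ncOp e) L) y)
      (fun a b => by beta_reduce; rw [map_add, mul_add, map_add])
      (fun a b => map_add _ _ _) (fun a b => ?_) y
    beta_reduce
    rw [prodOp_ext, map_idm, ← mul_assoc, alg_comm (algSpan_map (Obj.snd (X i)
      (prodList X (Z.prod Z) L)) (algSpan_map _ (cyc_alg he))), mul_assoc, ← map_mul,
      Pool.Agent.X227.DN.push_idm, ← ih b]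
    rfl

theorem timesOp_funeq (X : ι → 𝒱.Obj) {Z : 𝒱.Obj} {e : W.H (Z.prod Z)}
    (he : e ∈ cyc W (Z.prod Z)) (L : List ι) :
    timesOp X e L = fun y => listOp X (ncOp e) L y := funext fun y => timesOp_eq X he L y

theorem ncd_iff (X : ι → 𝒱.Obj) {Z : 𝒱.Obj} {e : W.H (Z.prod Z)} (he : Projector Z e)
    (L : List ι) : NCD W (prodList X Z L) (timesOp X e L) ↔
      NCHomEqNum (prodList X Z L) (listOp X (ncOp e) L) := by
  rw [timesOp_funeq X he.1]
  exact Iff.rfl

theorem nch_iff (Ψ : HodgeData W) (X : ι → 𝒱.Obj) {Z : 𝒱.Obj} {e : W.H (Z.prod Z)}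
    (he : Projector Z e) (L : List ι) : NCHodge Ψ (prodList X Z L) (timesOp X e L) ↔
      MS.NCHodge Ψ (prodList X Z L) (listOp X (ncOp e) L) := by
  rw [timesOp_funeq X he.1]
  have h : (⋃ j, {c | IsHodge Ψ (prodList X Z L) j c}) =
      {c | ∃ j, IsHodge Ψ (prodList X Z L) j c} := by
    ext c
    rw [Set.mem_iUnion]
    rfl
  unfold NCHodge CoveredOn mixed MS.NCHodge hdg
  rw [h]
  exact Iff.rfl

theorem timesOp_nil (X : ι → 𝒱.Obj) {Z : 𝒱.Obj} (e : W.H (Z.prod Z)) :
    timesOp X e [] = selfOp e := by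
  funext y
  change W.push (snd Z Z) (W.map (𝟙 (Z.prod Z)) e * W.map (fst Z Z) y) = _
  rw [W.map_id]
  rfl

section

variable (Ψ : HodgeData W)

/-- The noncommutative standard conjecture D on products. -/
theorem d_general [IsAlgClosed W.K] [DecidableEq ι] {X : ι → 𝒱.Obj} (Z : 𝒱.Obj)
    (hX : SpFamily Ψ X) :
    ∃ B : Finset ι, ∑ i ∈ B, trDim W (X i) ≤ totDim W Z ∧ (∀ i ∈ B, ¬TypeSep Ψ (X i) Z) ∧
      ∀ e : W.H (Z.prod Z), Projector Z e → ∀ L : List ι,
        (NCD W (prodList X Z L) (timesOp X e L) ↔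
          ∀ L' : List ι, L'.Sublist L → SmallHodge Ψ X Z B L' →
            NCD W (prodList X Z L') (timesOp X e L')) := by
  obtain ⟨B, h1, h2, h3⟩ := nc_general Ψ Z hX
  refine ⟨B, h1, h2, fun e he L => ?_⟩
  rw [ncd_iff X he, h3 e (projector_iff he) L]
  exact forall_congr' fun L' => forall_congr' fun _ => forall_congr' fun _ =>
    (ncd_iff X he L').symm

theorem d_separated [IsAlgClosed W.K] {X : ι → 𝒱.Obj} (Z : 𝒱.Obj)
    (hX : SpFamily Ψ X) (hsep : ∀ i, TypeSep Ψ (X i) Z) (n : ℕ)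
    (e : W.H ((powN Z n).prod (powN Z n))) (he : Projector (powN Z n) e) (L : List ι) :
    NCD W (prodList X (powN Z n) L) (timesOp X e L) ↔
      NCD W (powN Z n) (selfOp e) := by
  rw [ncd_iff X he, nc_separated Ψ Z hX hsep n e (projector_iff he) L, ← timesOp_nil X e]
  exact (ncd_iff X he []).symm

/-- The noncommutative Hodge conjecture on products. -/
theorem h_general [IsAlgClosed W.K] [DecidableEq ι] {X : ι → 𝒱.Obj} (Z : 𝒱.Obj)
    (hX : SpFamily Ψ X) :
    ∃ B : Finset ι, ∑ i ∈ B, trDim W (X i) ≤ totDim W Z ∧ (∀ i ∈ B, ¬TypeSep Ψ (X i) Z) ∧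
      ∀ e : W.H (Z.prod Z), Projector Z e → ∀ L : List ι,
        (NCHodge Ψ (prodList X Z L) (timesOp X e L) ↔
          ∀ L' : List ι, L'.Sublist L → SmallHodge Ψ X Z B L' →
            NCHodge Ψ (prodList X Z L') (timesOp X e L')) := by
  obtain ⟨B, h1, h2, h3⟩ := nch_general Ψ Z hX
  refine ⟨B, h1, h2, fun e he L => ?_⟩
  rw [nch_iff Ψ X he, h3 e (projector_iff he) L]
  exact forall_congr' fun L' => forall_congr' fun _ => forall_congr' fun _ =>
    (nch_iff Ψ X he L').symm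

theorem h_separated [IsAlgClosed W.K] {X : ι → 𝒱.Obj} (Z : 𝒱.Obj)
    (hX : SpFamily Ψ X) (hsep : ∀ i, TypeSep Ψ (X i) Z) (n : ℕ)
    (e : W.H ((powN Z n).prod (powN Z n))) (he : Projector (powN Z n) e) (L : List ι) :
    NCHodge Ψ (prodList X (powN Z n) L) (timesOp X e L) ↔
      NCHodge Ψ (powN Z n) (selfOp e) := by
  rw [nch_iff Ψ X he, nch_separated Ψ Z hX hsep n e (projector_iff he) L, ← timesOp_nil X e]
  exact (nch_iff Ψ X he []).symm

end

end Pool.Agent.X227.NP
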