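import Pool.Agent.X227.NP.FDefs
import Pool.Agent.X227.NP.Main

/-!
# The noncommutative variational Hodge conjecture on products
-/

open CategoryTheory AlgebraicGeometry
open Pool.Agent.Y132.EP (DG tow idm map_idm exm map_exm)

universe u

namespace Pool.Agent.X227.NP

open Pool.Agent.H914 Pool.Agent.H914.VarClass Pool.Agent.H914.VarClass.Obj
  Pool.Agent.H914.WeilCohomology Pool.Agent.Y132.AH Pool.Agent.X227.MS Pool.Agent.H281R3.HT
  Pool.Agent.W552 Pool.Agent.TH125.Gal Pool.Agent.Y132.AF Pool.Agent.X227.MM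

variable {k : Type u} [Field k] {𝒱 : VarClass k} {ops : CycleOps 𝒱} {ι : Type}
  {W : WeilCohomology.{u, 0} ops} {Γ : Type} [Group Γ]

section descent

/-- Rational form, with a coefficient action. -/
theorem sub_iff' [IsAlgClosed W.K] {P Q : ∀ X : 𝒱.Obj, ℕ → W.H X → Prop} (hP : GCls P)
    (hQ : GCls Q) (γ : ∀ X : 𝒱.Obj, RingAut W.K →* RingAut (W.H X))
    (hγ : ∀ X σ (r : W.K) (a : W.H X), γ X σ (r • a) = σ r • γ X σ a)
    (hr : ∀ Y j y, P Y j y → ∀ σ, γ Y σ y = y)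
    (hr' : ∀ Y j y, Q Y j y → ∀ σ, γ Y σ y = y) {Y : 𝒱.Obj}
    {E : W.H Y →ₗ[W.K] W.H Y} (hE : RoofOp Y E) (hi : ∀ y, E (E y) = E y) :
    (∀ y ∈ GCls.mix P Y, E y = y → y ∈ GCls.mix Q Y) ↔
      Sub (ofSys hP.sys) (ofSys hQ.sys) Y E := by
  constructor
  · intro h y hy
    refine ⟨?_, hy.2⟩
    rw [← mem_fixed.1 hy.2]
    have h1 : y ∈ Submodule.span W.K {c | ∃ j, P Y j c} := hy.1
    clear hy
    induction h1 using Submodule.span_induction with
    | mem x hx =>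
      obtain ⟨j, hj⟩ := hx
      exact hQ.mix_le (h _ (hP.roof hE (GCls.mix_of hj)) (hi x))
    | zero => rw [map_zero]; exact Submodule.zero_mem _
    | add a b _ _ ha hb => rw [map_add]; exact Submodule.add_mem _ ha hb
    | smul r a _ ha => rw [map_smul]; exact Submodule.smul_mem _ _ ha
  · intro h y hy hEy
    have h1 : y ∈ Submodule.span W.K {c | ∃ j, Q Y j c} := (h y ⟨hP.mix_le hy, hEy⟩).1
    have hfix : ∀ {R : ∀ X : 𝒱.Obj, ℕ → W.H X → Prop}, (∀ Y j y, R Y j y → ∀ σ,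
        γ Y σ y = y) → ∀ y ∈ GCls.mix R Y, ∀ σ, γ Y σ y = y := by
      intro R hR y hy σ
      refine GCls.mix_ind (p := fun y => γ Y σ y = y) (fun j y hj => hR Y j y hj σ)
        (map_zero _) ?_ ?_ hy
      · intro a b ha hb
        rw [map_add, ha, hb]
      · intro a ha
        rw [map_neg, ha]
    refine mem_of_mem_span (γ := fun σ a => γ Y σ a) (S := {c | c ∈ GCls.mix Q Y})
      (fun σ a b => map_add _ a b) (hγ Y) (fun a ha σ => hfix hr' a ha σ)
      (zero_mem (GCls.mix Q Y)) (fun a ha b hb => (GCls.mix Q Y).add_mem ha hb)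
      (fun q a ha => hQ.mix_smul q ha)
      (hfix hr y hy) (Submodule.span_mono ?_ h1)
    rintro c ⟨j, hj⟩
    exact GCls.mix_of hj

end descent

section fam

variable (D : FamData W) (G : GaloisData W Γ)

/-- The flat classes which are algebraic on the special member. -/
def IsFlat (Y : 𝒱.Obj) (j : ℕ) (c : W.H Y) : Prop := c ∈ flatIn G.χ (G.on Y).act (D.on Y).special j

theorem isFlat_iff {Y : 𝒱.Obj} {j : ℕ} {c : W.H Y} :
    IsFlat D G Y j c ↔ c ∈ (D.on Y).special j ∧ IsTate G Y j c :=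
  ⟨fun h => ⟨h.1, (D.on Y).isCls.deg j h.1, h.2⟩, fun h => ⟨h.1, h.2.2⟩⟩

theorem gcls_flat : GCls (W := W) (IsFlat D G) where
  cyc X j z hz := (isFlat_iff D G).2 ⟨(D.on X).isCls.cyc j ⟨z, hz, rfl⟩, isTate_cyc G hz⟩
  add X j a b ha hb := by
    rw [isFlat_iff] at ha hb ⊢
    exact ⟨(D.on X).isCls.add j a ha.1 b hb.1, isTate_add G ha.2 hb.2⟩
  smul X j a q ha := by
    rw [isFlat_iff] at ha ⊢
    exact ⟨(D.on X).isCls.smul q j a ha.1, isTate_smul G _ ha.2⟩
  mul X i j a b ha hb := by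
    rw [isFlat_iff] at ha hb ⊢
    exact ⟨(D.on X).isCls.mul i j a ha.1 b hb.1, isTate_mul G ha.2 hb.2⟩
  map f j b hb := by
    rw [isFlat_iff] at hb ⊢
    exact ⟨(D.compat f).1 j b hb.1, isTate_map G f hb.2⟩
  push f j l a hl ha := by
    rw [isFlat_iff] at ha ⊢
    exact ⟨(D.compat f).2 j l hl a ha.1, isTate_push G f hl ha.2⟩
  gr X j a ha := (D.on X).isCls.deg j ha.1

theorem tateComp_span {Y : 𝒱.Obj} {y : W.H Y}
    (hy : y ∈ Submodule.span W.K {c | ∃ j, IsFlat D G Y j c}) : TateComp G.χ (G.var Y) y := by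
  have key : ∀ m, (¬Even m → prj (W.isInternal Y) m y = 0) ∧ ∀ j, m = 2 * j →
      IsTate G Y j (prj (W.isInternal Y) m y) := by
    intro m
    induction hy using Submodule.span_induction with
    | mem c hc =>
      obtain ⟨i, hi⟩ := hc
      have hg := (D.on Y).isCls.deg i hi.1
      refine ⟨fun hm => prj_ne _ (fun h => hm (by rw [← h]; exact even_two_mul i)) hg, ?_⟩
      rintro j rfl
      by_cases hij : i = j
      · subst hij
        rw [prj_same _ hg]
        exact ((isFlat_iff D G).1 hi).2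
      · rw [prj_ne _ (by omega) hg]
        exact isTate_zero G Y j
    | zero => exact ⟨fun _ => map_zero _, fun j _ => by rw [map_zero]; exact isTate_zero G Y j⟩
    | add x y _ _ hx hy =>
      exact ⟨fun h => by rw [map_add, hx.1 h, hy.1 h, add_zero],
        fun j hj => by rw [map_add]; exact isTate_add G (hx.2 j hj) (hy.2 j hj)⟩
    | smul r x _ hx =>
      exact ⟨fun h => by rw [map_smul, hx.1 h, smul_zero],
        fun j hj => by rw [map_smul]; exact isTate_smul G _ (hx.2 j hj)⟩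
  intro m
  by_cases hm : Even m
  · obtain ⟨j, hj⟩ := hm
    exact Or.inr ⟨j, by omega, ((key m).2 j (by omega)).2⟩
  · exact Or.inl ((key m).1 hm)

theorem ncv_iff' [IsAlgClosed W.K] {Y : 𝒱.Obj} {E : W.H Y →ₗ[W.K] W.H Y}
    (hE : RoofOp Y E) (hi : ∀ y, E (E y) = E y) :
    NCVar D G Y (fun y => E y) ↔ Sub (ofSys (gcls_flat D G).sys) (ofSys gcls_alg.sys) Y E := by
  rw [← sub_iff' (gcls_flat D G) gcls_alg (fun X => (D.on X).coeff)
    (fun X => (D.on X).isCoeffAct.smul)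
    (fun Y j y hy σ => (D.on Y).isCls.rat j y hy.1 σ)
    (fun Y j y hy σ => (D.on Y).isCoeffAct.cl_act σ j y hy) hE hi, mix_alg]
  have h : (⋃ j, flatIn G.χ (G.on Y).act (D.on Y).special j) =
      {c | ∃ j, IsFlat D G Y j c} := by
    ext c
    rw [Set.mem_iUnion]
    rfl
  unfold NCVar CoveredOn mixed GCls.mix
  rw [h]
  exact Iff.rfl

theorem ncv_iff [IsAlgClosed W.K] (X : ι → 𝒱.Obj) {Z : 𝒱.Obj} {e : W.H (Z.prod Z)}
    (he : Projector Z e) (L : List ι) : NCVar D G (prodList X Z L) (timesOp X e L) ↔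
      Sub (ofSys (gcls_flat D G).sys) (ofSys gcls_alg.sys) (prodList X Z L)
        (listOp X (ncOp e) L) := by
  rw [timesOp_funeq X he.1]
  exact ncv_iff' D G (roof_list X (projector_iff he) L).1 (roof_list X (projector_iff he) L).2

theorem not_stable {X Z : 𝒱.Obj} (h : MonApart G X Z) :
    ¬StableBound G.χ (G.var X) (G.var Z) := by
  intro hB
  obtain ⟨g, a, b, lam, hlam, ⟨x, hx, hx0, hxa⟩, ⟨y, hy, hy0, hyb⟩, 𝒰, h𝒰, hno⟩ := h
  obtain ⟨U, hU, z, hz, w, hw, hz0, hw0, β, hzβ, hwβ⟩ := hB 𝒰 ⟨h𝒰.stable, h𝒰.gen⟩ g a b lam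
    x hx y hy hx0 hy0 hxa hyb hlam
  exact hno U hU β ⟨z, hz, hz0, hzβ⟩ ⟨w, hw, hw0, hwβ⟩

/-- **The noncommutative variational Hodge conjecture on products.** -/
theorem v_general [IsAlgClosed W.K] [DecidableEq ι] {X : ι → 𝒱.Obj} (Z : 𝒱.Obj)
    (hX : ∀ i, OddMiddle W (X i)) (hG : BigFamily G X) :
    ∃ B : Finset ι, ∑ i ∈ B, trDim W (X i) ≤ totDim W Z ∧ (∀ i ∈ B, ¬MonApart G (X i) Z) ∧
      ∀ e : W.H (Z.prod Z), Projector Z e → ∀ L : List ι,
        (NCVar D G (prodList X Z L) (timesOp X e L) ↔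
          ∀ L' : List ι, L'.Sublist L → SmallDim W X Z B L' →
            NCVar D G (prodList X Z L') (timesOp X e L')) := by
  have hX' := bigFamily_ad G hX hG
  obtain ⟨B, h1, h2, h3⟩ := sys_iff (fun Y => G.act Y) (X := X) (Z := Z) hX' (var_graded G Z)
    (fun L Y hY => by
      have h4 := var_tower_eq G hY
      rw [h4])
  refine ⟨B, h1, fun i hi h => not_stable G h (h2 i hi), fun e he L => ?_⟩
  have h4 := h3 (ofSys (gcls_flat D G).sys) (ofSys gcls_alg.sys) (ncOp e) L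
    fun Y E y hy => tateComp_span D G hy.1
  rw [ncv_iff D G X he, h4]
  constructor
  · intro h L' hsub _
    rw [ncv_iff D G X he]
    have h5 := sys_sublist (ℳ := ofSys (gcls_flat D G).sys) (𝒩 := ofSys gcls_alg.sys)
      (Z := Z) (E := ncOp e) (fun i => (hX i).homEqNum) (fun i => one_ne (hG.big i)) hsub
    exact h5 (h4.2 h)
  · intro h L' hsub hsmall
    exact (ncv_iff D G X he L').1 (h L' hsub (small_list G hsmall))

theorem v_sub [IsAlgClosed W.K] {X : ι → 𝒱.Obj} {Z : 𝒱.Obj}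
    (hX : ∀ i, OddMiddle W (X i)) (hG : BigFamily G X) {e : W.H (Z.prod Z)}
    (he : Projector Z e) {L L' : List ι} (hsub : L'.Sublist L)
    (h : NCVar D G (prodList X Z L) (timesOp X e L)) :
    NCVar D G (prodList X Z L') (timesOp X e L') := by
  rw [ncv_iff D G X he] at h ⊢
  exact sys_sublist (ℳ := ofSys (gcls_flat D G).sys) (𝒩 := ofSys gcls_alg.sys)
      (Z := Z) (E := ncOp e) (fun i => (hX i).homEqNum) (fun i => one_ne (hG.big i)) hsub h

end fam

section sep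

variable (G : GaloisData W Γ)

theorem mon_prod {X A B : 𝒱.Obj} {g : Γ} {lam : W.K}
    (hA : ∃ 𝒰 : Set (Submodule W.K (W.H A)), StabGen (fun γ x => (G.on A).act γ x) 𝒰 ∧
      ∀ U ∈ 𝒰, ∀ β, EigOn (G.on A).act g U (lam * β) → ¬EigOn (G.on A).act g U β)
    (hB : ∃ 𝒰 : Set (Submodule W.K (W.H B)), StabGen (fun γ x => (G.on B).act γ x) 𝒰 ∧
      ∀ U ∈ 𝒰, ∀ β, EigOn (G.on B).act g U (lam * β) → ¬EigOn (G.on B).act g U β) :
    ∃ 𝒰 : Set (Submodule W.K (W.H (A.prod B))),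
      StabGen (fun γ x => (G.on (A.prod B)).act γ x) 𝒰 ∧
      ∀ U ∈ 𝒰, ∀ β, EigOn (G.on (A.prod B)).act g U (lam * β) →
        ¬EigOn (G.on (A.prod B)).act g U β := by
  obtain ⟨𝒰, h1, h2⟩ := hA
  obtain ⟨𝒰', h1', h2'⟩ := hB
  refine ⟨prodFam 𝒰 𝒰', ⟨?_, prodFam_gen h1.gen h1'.gen⟩, ?_⟩
  · rintro _ (⟨V, hV, rfl⟩ | ⟨V, hV, rfl⟩) g _ ⟨v, hv, rfl⟩
    · exact ⟨_, h1.stable V hV g v hv, (G.map _ g v).symm⟩
    · exact ⟨_, h1'.stable V hV g v hv, (G.map _ g v).symm⟩
  · by_cases hAB : (1 : W.H (A.prod B)) = 0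
    · rintro U - β ⟨x, -, hx0, -⟩
      exact absurd (by rw [← one_mul x, hAB, zero_mul]) hx0
    · have hA1 : (1 : W.H A) ≠ 0 := fun h0 => hAB (by
        rw [← map_one (W.map (fst A B)), h0, map_zero])
      have hB1 : (1 : W.H B) ≠ 0 := fun h0 => hAB (by
        rw [← map_one (W.map (snd A B)), h0, map_zero])
      have key : ∀ {C : 𝒱.Obj} (f : A.prod B ⟶ C) (_ : ∀ x, W.map f x = 0 → x = 0)
          (V : Submodule W.K (W.H C)) (c : W.K),
          EigOn (G.on (A.prod B)).act g (V.map (W.map f).toLinearMap) c →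
            EigOn (G.on C).act g V c := by
        rintro C f hf V c ⟨_, ⟨u, hu, rfl⟩, hu0, huc⟩
        refine ⟨u, hu, fun h0 => hu0 (by rw [h0, map_zero]), ?_⟩
        rw [← sub_eq_zero]
        apply hf
        rw [map_sub, map_smul, ← G.map f g u, sub_eq_zero]
        exact huc
      rintro _ (⟨V, hV, rfl⟩ | ⟨V, hV, rfl⟩) β h3 h4
      · exact h2 V hV β (key _ (fun x => map_fst_inj hB1) V _ h3)
          (key _ (fun x => map_fst_inj hB1) V _ h4)
      · exact h2' V hV β (key _ (fun x => map_snd_inj hA1) V _ h3)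
          (key _ (fun x => map_snd_inj hA1) V _ h4)

theorem mon_pow {X Z : 𝒱.Obj} (h : MonApart G X Z) (n : ℕ) : MonApart G X (powN Z n) := by
  obtain ⟨g, a, b, lam, hlam, ha, hb, hZ⟩ := h
  refine ⟨g, a, b, lam, hlam, ha, hb, ?_⟩
  induction n with
  | zero => exact hZ
  | succ n ih => exact mon_prod (X := X) G hZ ih

theorem v_separated [IsAlgClosed W.K] (D : FamData W) {X : ι → 𝒱.Obj} (Z : 𝒱.Obj)
    (hX : ∀ i, OddMiddle W (X i)) (hG : BigFamily G X) (hsep : ∀ i, MonApart G (X i) Z) (n : ℕ)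
    (e : W.H ((powN Z n).prod (powN Z n))) (he : Projector (powN Z n) e) (L : List ι) :
    NCVar D G (prodList X (powN Z n) L) (timesOp X e L) ↔
      NCVar D G (powN Z n) (selfOp e) := by
  classical
  obtain ⟨B, -, h2, h3⟩ := v_general D G (powN Z n) hX hG
  constructor
  · intro h
    have h1 := v_sub D G hX hG he (List.nil_sublist L) h
    rwa [timesOp_nil] at h1
  · intro h
    rw [h3 e he L]
    intro L' _ hs
    have h5 : L' = [] := by
      rw [List.eq_nil_iff_forall_not_mem]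
      exact fun i hi => h2 i (hs.mem i hi) (mon_pow G (hsep i) n)
    rw [h5, timesOp_nil]
    exact h

end sep

end Pool.Agent.X227.NP

namespace Pool.Agent.X227.NP

open Pool.Agent.H914 Pool.Agent.H914.VarClass Pool.Agent.H914.VarClass.Obj
  Pool.Agent.H914.WeilCohomology Pool.Agent.Y132.AH Pool.Agent.X227.MS Pool.Agent.H281R3.HT
  Pool.Agent.W552 Pool.Agent.TH125.Gal Pool.Agent.Y132.AF Pool.Agent.X227.MM

variable {k : Type u} [Field k] {𝒱 : VarClass k} {ops : CycleOps 𝒱} {ι : Type}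
  {W : WeilCohomology.{u, 0} ops} {Γ : Type} [Group Γ]

theorem algSpan_point {Z : 𝒱.Obj} (hZ : Z.dim = 0) (c : W.H Z) : c ∈ algSpan W Z := by
  refine gr_induction (W.isInternal Z) (p := fun c => c ∈ algSpan W Z) ?_ ?_ c
  · intro j b hb
    rcases Nat.eq_zero_or_pos j with rfl | hj
    · rw [W.gr_zero] at hb
      refine Submodule.span_mono ?_ hb
      rw [Set.singleton_subset_iff]
      exact Set.mem_iUnion.2 ⟨0, Z.V.fundCycle, Z.V.fundCycle_mem, W.cl_fund Z⟩
    · rw [gr_zero_bot hZ hj] at hb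
      rw [(Submodule.mem_bot _).1 hb]
      exact Submodule.zero_mem _
  · intro b b' hb hb'
    exact Submodule.add_mem _ hb hb'

theorem algSpan_eq {Y : 𝒱.Obj} : (gcls_alg (W := W)).sys.C Y = algSpan W Y := by
  have h : {c | ∃ j, c ∈ algClasses W Y j} = ⋃ j, algClasses W Y j := by
    ext c
    rw [Set.mem_iUnion]
    rfl
  rw [GCls.sys_C, h]
  rfl

theorem roof_id (Y : 𝒱.Obj) : RoofOp Y (LinearMap.id : W.H Y →ₗ[W.K] W.H Y) := by
  refine ⟨Y, 𝟙 Y, 𝟙 Y, 1, cyc_of ⟨_, Y.V.fundCycle_mem, W.cl_fund Y⟩, fun y => ?_⟩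
  rw [W.map_id, one_mul]
  apply W.tr_ext
  intro c
  rw [W.tr_push, W.map_id]
  rfl

section fam

variable (D : FamData W) (G : GaloisData W Γ)

theorem v_products [IsAlgClosed W.K] {X : ι → 𝒱.Obj} {Z : 𝒱.Obj} (hZ : Z.dim = 0)
    (hX : ∀ i, OddMiddle W (X i)) (hG : BigFamily G X) (L : List ι) :
    Sub (ofSys (gcls_flat D G).sys) (ofSys gcls_alg.sys) (prodList X Z L)
      LinearMap.id := by
  classical
  have hX' := bigFamily_ad G hX hG
  obtain ⟨B, h1, h2, h3⟩ := sys_iff (fun Y => G.act Y) (X := X) (Z := Z) hX' (var_graded G Z)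
    (fun L Y hY => by
      have h4 := var_tower_eq G hY
      rw [h4])
  have h4 := h3 (ofSys (gcls_flat D G).sys) (ofSys gcls_alg.sys) LinearMap.id L
    fun Y E y hy => tateComp_span D G hy.1
  simp only [listOp_id] at h4
  rw [h4]
  intro L' _ hsmall
  rw [smallDim_nil0 hZ (small_list G hsmall)]
  intro y hy
  refine ⟨?_, hy.2⟩
  rw [algSpan_eq]
  exact algSpan_point hZ y

end fam

end Pool.Agent.X227.NP
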