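import Pool.Agent.Y132.AH.GDefs
import Pool.Agent.X227.NP.Defs

/-!
# Families of varieties with a special member: definitions, Hodge theoretic version
-/

open CategoryTheory AlgebraicGeometry

universe u

namespace Pool.Agent.X227.NP

open Pool.Agent.H914 Pool.Agent.H914.VarClass Pool.Agent.H914.VarClass.Obj
  Pool.Agent.H914.WeilCohomology Pool.Agent.Y132.AH

section Alg

variable {K A B : Type} [Field K] [Ring A] [Algebra K A] [Ring B] [Algebra K B]

/-- The sets `P j` of elements of degree `2 j` contain the sets `Z j`, consist of rational elements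
(fixed by all automorphisms `1 ⊗ σ`), and are closed under sums, rational multiples and products. -/
structure IsSpecial {gr : ℕ → Submodule K A} {n : ℕ} {tr : A →ₗ[K] K} {Z : ℕ → Set A}
    (Ψ : HodgeAlg gr n tr Z) (P : ℕ → Set A) : Prop where
  cyc : ∀ j, Z j ⊆ P j
  deg : ∀ j, P j ⊆ gr (2 * j)
  rat : ∀ j, ∀ a ∈ P j, ∀ σ, Ψ.coeff σ a = a
  add : ∀ j, ∀ a ∈ P j, ∀ b ∈ P j, a + b ∈ P j
  smul : ∀ (q : ℚ) j, ∀ a ∈ P j, (q : K) • a ∈ P j
  mul : ∀ i j, ∀ a ∈ P i, ∀ b ∈ P j, a * b ∈ P (i + j)

/-- `f` maps `P j` to `P' j`, and `g` maps `P' j` to `P l` if `l + n' = j + n`. -/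
def Exch (P : ℕ → Set A) (P' : ℕ → Set B) (n n' : ℕ) (f : A →ₐ[K] B) (g : B →ₗ[K] A) : Prop :=
  (∀ j, ∀ a ∈ P j, f a ∈ P' j) ∧ ∀ j l, l + n' = j + n → ∀ b ∈ P' j, g b ∈ P l

end Alg

variable {k : Type u} [Field k] {𝒱 : VarClass k} {ops : CycleOps 𝒱}
  {W : WeilCohomology.{u, 0} ops}

/-- A special member for the families over the base (which are given by their geometric generic
members `X`): the sets `special X j` of the rational classes of degree `2 j` whose parallel transport
to the special member is the class of an algebraic cycle; they are compatible with pull-backs and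
push-forwards. -/
structure Special (Ψ : HodgeData W) where
  /-- the classes which are algebraic on the special member -/
  special : ∀ X : 𝒱.Obj, ℕ → Set (W.H X)
  isSpecial : ∀ X, IsSpecial (Ψ.on X) (special X)
  exch : ∀ {X Y : 𝒱.Obj} (f : X ⟶ Y), Exch (special Y) (special X) Y.dim X.dim
    (W.map f) (W.push f)

/-- **The variational Hodge conjecture** for the family `X` (for a given special member): each class
which is a Hodge class on the very general member and algebraic on the special member is the class of
a cycle with rational coefficients on the geometric generic member. -/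
def VHC {Ψ : HodgeData W} (D : Special Ψ) (X : 𝒱.Obj) : Prop :=
  ∀ j, ∀ c ∈ D.special X j, IsHodge Ψ X j c → c ∈ algClasses W X j

end Pool.Agent.X227.NP
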