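import Pool.Agent.X227.NP.Var
import Pool.Agent.X227.NP.HVDefs

/-!
# The variational Hodge conjecture on products, Hodge theoretic version
-/

open CategoryTheory AlgebraicGeometry
open Pool.Agent.Y132.EP (DG tow idm map_idm exm map_exm)

universe u

namespace Pool.Agent.X227.NP

open Pool.Agent.H914 Pool.Agent.H914.VarClass Pool.Agent.H914.VarClass.Obj
  Pool.Agent.H914.WeilCohomology Pool.Agent.Y132.AH Pool.Agent.X227.MS Pool.Agent.H281R3.HT
  Pool.Agent.W552 Pool.Agent.TH125.Gal Pool.Agent.Y132.AF Pool.Agent.X227.MM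

variable {k : Type u} [Field k] {𝒱 : VarClass k} {ops : CycleOps 𝒱} {ι : Type}
  {W : WeilCohomology.{u, 0} ops} {Ψ : HodgeData W} (D : Special Ψ)

/-- The Hodge classes which are algebraic on the special member. -/
def IsSp (Y : 𝒱.Obj) (j : ℕ) (c : W.H Y) : Prop := c ∈ D.special Y j ∧ IsHodge Ψ Y j c

theorem gcls_sp : GCls (W := W) (IsSp D) where
  cyc X j z hz := ⟨(D.isSpecial X).cyc j ⟨z, hz, rfl⟩, isHodge_cyc Ψ hz⟩
  add X j a b ha hb := ⟨(D.isSpecial X).add j a ha.1 b hb.1, isHodge_add Ψ ha.2 hb.2⟩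
  smul X j a q ha := ⟨(D.isSpecial X).smul q j a ha.1, isHodge_smul Ψ q ha.2⟩
  mul X i j a b ha hb := ⟨(D.isSpecial X).mul i j a ha.1 b hb.1, isHodge_mul Ψ ha.2 hb.2⟩
  map f j b hb := ⟨(D.exch f).1 j b hb.1, isHodge_map Ψ f hb.2⟩
  push f j l a hl ha := ⟨(D.exch f).2 j l hl a ha.1, isHodge_push Ψ f hl ha.2⟩
  gr X j a ha := hodge_gr Ψ ha.2

theorem vhc_iff [IsAlgClosed W.K] (Y : 𝒱.Obj) :
    VHC D Y ↔ Sub (ofSys (gcls_sp D).sys) (ofSys gcls_alg.sys) Y LinearMap.id := by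
  rw [← sub_iff' (gcls_sp D) gcls_alg (fun X => Ψ.coeff X)
    (fun X => (Ψ.isCoeffAct X).smul) (fun Y j y hy σ => hy.2.2 σ)
    (fun Y j y hy σ => (Ψ.isCoeffAct Y).cl_act σ j y hy) (roof_id Y) (fun _ => rfl), mix_alg]
  constructor
  · intro h y hy _
    refine GCls.mix_ind (p := fun y => y ∈ cyc W Y) (fun j y hj => cyc_of (h j y hj.1 hj.2))
      (zero_mem _) (fun _ _ => add_mem) (fun _ => neg_mem) hy
  · intro h j c hc hH
    have h2 := cyc_prj (h c (GCls.mix_of (P := IsSp D) ⟨hc, hH⟩) rfl) j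
    rwa [prj_same _ (hodge_gr Ψ hH)] at h2

theorem vhc_iso {A B : 𝒱.Obj} (e : A ≅ B) (h : VHC D A) : VHC D B := by
  intro j c hc hH
  have h1 : W.map e.inv (W.map e.hom c) = c := by
    rw [← W.map_comp, e.inv_hom_id, W.map_id]
  have h2 : IsSp D A j (W.map e.hom c) := (gcls_sp D).map e.hom j c ⟨hc, hH⟩
  rw [← h1]
  exact gcls_alg.map e.inv j _ (h j _ h2.1 h2.2)

theorem sp_one {X : ι → 𝒱.Obj} (hX : SpFamily Ψ X) (i : ι) : (1 : W.H (X i)) ≠ 0 := by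
  intro h0
  obtain ⟨F, x, hx, y, hy, hx0, -⟩ := ((adFamily Ψ hX).var i).act.hyperbolic
  apply hx0
  rw [← one_mul x]
  change (1 : W.H (X i)) * x = 0
  rw [h0, zero_mul]

theorem vhc_sub [IsAlgClosed W.K] {X : ι → 𝒱.Obj} {Z : 𝒱.Obj}
    (hX : SpFamily Ψ X) {L L' : List ι} (hsub : L'.Sublist L)
    (h : VHC D (prodList X Z L)) : VHC D (prodList X Z L') := by
  rw [vhc_iff] at h ⊢
  have h5 := sys_sublist (ℳ := ofSys (gcls_sp D).sys) (𝒩 := ofSys gcls_alg.sys)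
    (E := (LinearMap.id : W.H Z →ₗ[W.K] W.H Z)) (fun i => (hX.var i).homEqNum)
    (sp_one hX) hsub
  rw [listOp_id, listOp_id] at h5
  exact h5 h

/-- **The variational Hodge conjecture on products.** -/
theorem vhc_general [IsAlgClosed W.K] [DecidableEq ι] {X : ι → 𝒱.Obj} (Z : 𝒱.Obj)
    (hX : SpFamily Ψ X) :
    ∃ B : Finset ι, ∑ i ∈ B, trDim W (X i) ≤ totDim W Z ∧ (∀ i ∈ B, ¬TypeSep Ψ (X i) Z) ∧
      ∀ L : List ι, VHC D (prodList X Z L) ↔
          ∀ L' : List ι, L'.Sublist L → SmallHodge Ψ X Z B L' → VHC D (prodList X Z L') := by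
  obtain ⟨B, h1, h2, h3⟩ := hodge_sys Ψ Z hX
  refine ⟨B, h1, h2, fun L => ?_⟩
  have h4 := h3 (ofSys (gcls_sp D).sys) (ofSys gcls_alg.sys) LinearMap.id L
    fun Y E y hy => hodgeComp_span Ψ (Submodule.span_mono (fun c hc => by
      obtain ⟨j, hj⟩ := hc
      exact ⟨j, hj.2⟩) hy.1)
  simp only [listOp_id] at h4
  rw [vhc_iff, h4]
  exact forall_congr' fun L' => forall_congr' fun _ => forall_congr' fun _ =>
    (vhc_iff D _).symm

theorem vhc_sep [IsAlgClosed W.K] {X : ι → 𝒱.Obj} (Z : 𝒱.Obj)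
    (hX : SpFamily Ψ X) (hsep : ∀ i, TypeSep Ψ (X i) Z)
    (L : List ι) (n : ℕ) : VHC D (powN (prodList X Z L) n) ↔ VHC D (powN Z n) := by
  classical
  have key : ∀ (Z : 𝒱.Obj), (∀ i, TypeSep Ψ (X i) Z) → ∀ L : List ι,
      VHC D (prodList X Z L) ↔ VHC D Z := by
    intro Z hsep L
    obtain ⟨B, -, h2, h3⟩ := vhc_general D Z hX
    refine ⟨fun h => vhc_sub D hX (List.nil_sublist L) h, fun h => ?_⟩
    rw [h3]
    intro L' _ hs
    have h5 : L' = [] := by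
      rw [List.eq_nil_iff_forall_not_mem]
      exact fun i hi => h2 i (hs.mem i hi) (hsep i)
    rw [h5]
    exact h
  obtain ⟨L', ⟨e⟩⟩ := iso_pow X Z L n
  have h3 := key (powN Z n) (fun i => typeSep_pow Ψ (hsep i) n) L'
  rw [← h3]
  exact ⟨fun h => vhc_iso D e h, fun h => vhc_iso D e.symm h⟩

theorem vhc_products [IsAlgClosed W.K] {X : ι → 𝒱.Obj} {Z : 𝒱.Obj} (hZ : Z.dim = 0)
    (hX : SpFamily Ψ X) (L : List ι) (n : ℕ) : VHC D (powN (prodList X Z L) n) := by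
  classical
  obtain ⟨L', ⟨e⟩⟩ := iso_pow X Z L n
  refine vhc_iso D e.symm ?_
  obtain ⟨B, -, -, h3⟩ := vhc_general D (powN Z n) hX
  rw [h3]
  intro L'' _ hsmall
  rw [smallDim_nil0 (powN_dim0 hZ n) (small_hodge Ψ hsmall)]
  change VHC D (powN Z n)
  rw [vhc_iff]
  intro y hy
  refine ⟨?_, hy.2⟩
  rw [algSpan_eq]
  exact algSpan_point (powN_dim0 hZ n) y

end Pool.Agent.X227.NP
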