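import Pool.Agent.X227.NP.MTate
import Pool.Agent.X227.NP.HV

/-!
# Classes fixed by a homogeneous correspondence
-/

open CategoryTheory AlgebraicGeometry
open Pool.Agent.Y132.EP (DG tow idm map_idm exm map_exm)

universe u

namespace Pool.Agent.X227.NP

open Pool.Agent.H914 Pool.Agent.H914.VarClass Pool.Agent.H914.VarClass.Obj
  Pool.Agent.H914.WeilCohomology Pool.Agent.Y132.AH Pool.Agent.X227.MS Pool.Agent.H281R3.HT
  Pool.Agent.W552 Pool.Agent.TH125.Gal Pool.Agent.Y132.AF Pool.Agent.X227.MM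

variable {k : Type u} [Field k] {𝒱 : VarClass k} {ops : CycleOps 𝒱} {ι : Type}
  {W : WeilCohomology.{u, 0} ops} {P Q : ∀ X : 𝒱.Obj, ℕ → W.H X → Prop}

theorem dim_list (X : ι → 𝒱.Obj) (Z : 𝒱.Obj) (L : List ι) :
    (prodList X (Z.prod Z) L).dim = (prodList X Z L).dim + Z.dim := by
  induction L with
  | nil => exact dim_prod Z Z
  | cons i L ih =>
    change ((X i).prod (prodList X (Z.prod Z) L)).dim = ((X i).prod (prodList X Z L)).dim + Z.dim
    rw [dim_prod, dim_prod, ih, add_assoc]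

/-- The operator of a class in `P` preserves the classes in `P`. -/
theorem gcls_over (h : GCls P) (X : ι → 𝒱.Obj) {Z : 𝒱.Obj} {e : W.H (Z.prod Z)}
    (he : P (Z.prod Z) Z.dim e) (L : List ι) {j : ℕ} {c : W.H (prodList X Z L)}
    (hc : P (prodList X Z L) j c) : P (prodList X Z L) j (listOp X (ncOp e) L c) := by
  have h1 : overOp X e L c = listOp X (ncOp e) L c := congrFun (overOp_eq X (h.gr _ _ _ he) L) c
  rw [← h1]
  refine h.push (listMap X (snd Z Z) L) (Z.dim + j) j _ ?_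
    (h.mul _ _ _ _ _ (h.map _ _ _ he) (h.map _ _ _ hc))
  rw [dim_list]
  omega

theorem gcls_mix_prj (h : GCls P) {Y : 𝒱.Obj} (j : ℕ) (h0 : P Y j 0) {y : W.H Y}
    (hy : y ∈ GCls.mix P Y) : P Y j (prj (W.isInternal Y) (2 * j) y) := by
  refine GCls.mix_ind (p := fun y => P Y j (prj (W.isInternal Y) (2 * j) y))
    (fun i y hi => ?_) ?_ ?_ ?_ hy
  · by_cases hij : i = j
    · subst hij
      rw [prj_same _ (h.gr _ _ _ hi)]
      exact hi
    · rw [prj_ne _ (by omega) (h.gr _ _ _ hi)]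
      exact h0
  · rw [map_zero]
    exact h0
  · intro a b ha hb
    rw [map_add]
    exact h.add _ _ _ _ ha hb
  · intro a ha
    rw [map_neg]
    have h1 := h.smul Y j _ (-1) ha
    rwa [Rat.cast_neg, Rat.cast_one, neg_one_smul] at h1

/-- Rational and homogeneous form. -/
theorem grad_iff [IsAlgClosed W.K] (hP : GCls P) (hQ : GCls Q)
    (γ : ∀ X : 𝒱.Obj, RingAut W.K →* RingAut (W.H X))
    (hγ : ∀ X σ (r : W.K) (a : W.H X), γ X σ (r • a) = σ r • γ X σ a)
    (hr : ∀ Y j y, P Y j y → ∀ σ, γ Y σ y = y)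
    (hr' : ∀ Y j y, Q Y j y → ∀ σ, γ Y σ y = y) (h0 : ∀ Y j, Q Y j 0) {Y : 𝒱.Obj}
    {E : W.H Y →ₗ[W.K] W.H Y} (hE : ∀ j c, P Y j c → P Y j (E c)) (hi : ∀ y, E (E y) = E y) :
    (∀ j c, P Y j c → E c = c → Q Y j c) ↔ Sub (ofSys hP.sys) (ofSys hQ.sys) Y E := by
  constructor
  · intro h y hy
    refine ⟨?_, hy.2⟩
    rw [← mem_fixed.1 hy.2]
    have h1 : y ∈ Submodule.span W.K {c | ∃ j, P Y j c} := hy.1
    clear hy
    induction h1 using Submodule.span_induction with
    | mem x hx =>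
      obtain ⟨j, hj⟩ := hx
      exact hQ.mix_le (GCls.mix_of (h j _ (hE j x hj) (hi x)))
    | zero => rw [map_zero]; exact Submodule.zero_mem _
    | add a b _ _ ha hb => rw [map_add]; exact Submodule.add_mem _ ha hb
    | smul r a _ ha => rw [map_smul]; exact Submodule.smul_mem _ _ ha
  · intro h j c hc hEc
    have h1 : c ∈ Submodule.span W.K {c | ∃ j, Q Y j c} :=
      (h c ⟨hP.mix_le (GCls.mix_of hc), hEc⟩).1
    have hfix : ∀ y ∈ GCls.mix Q Y, ∀ σ, γ Y σ y = y := by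
      intro y hy σ
      refine GCls.mix_ind (p := fun y => γ Y σ y = y) (fun j y hj => hr' Y j y hj σ)
        (map_zero _) ?_ ?_ hy
      · intro a b ha hb
        rw [map_add, ha, hb]
      · intro a ha
        rw [map_neg, ha]
    have h2 : c ∈ GCls.mix Q Y := by
      refine mem_of_mem_span (γ := fun σ a => γ Y σ a) (S := {c | c ∈ GCls.mix Q Y})
        (fun σ a b => map_add _ a b) (hγ Y) (fun a ha σ => hfix a ha σ)
        (zero_mem (GCls.mix Q Y)) (fun a ha b hb => (GCls.mix Q Y).add_mem ha hb)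
        (fun q a ha => hQ.mix_smul q ha) (hr Y j c hc) (Submodule.span_mono ?_ h1)
      rintro c ⟨j, hj⟩
      exact GCls.mix_of hj
    have h3 := gcls_mix_prj hQ j (h0 Y j) h2
    rwa [prj_same _ (hP.gr _ _ _ hc)] at h3

end Pool.Agent.X227.NP
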