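import Pool.Agent.X227.NP.FDefs
import Pool.Agent.X227.MM.Defs

/-!
# The motivic Tate conjecture for direct summands: definitions
-/

open CategoryTheory AlgebraicGeometry

universe u

namespace Pool.Agent.X227.NP

open Pool.Agent.H914 Pool.Agent.H914.VarClass Pool.Agent.H914.VarClass.Obj
  Pool.Agent.H914.WeilCohomology Pool.Agent.Y132.AH Pool.Agent.X227.MM

section Alg

variable {K A C Γ : Type} [Field K] [Ring A] [Algebra K A] [Ring C] [Algebra K C] [Group Γ]

/-- `e` is an element of degree `2 n` which satisfies `M`, and the operator `y ↦ s (e * p y)` is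
idempotent. -/
def IsMotProj (p : A →ₐ[K] C) (s : C →ₗ[K] A) (gr : ℕ → Submodule K C) (n : ℕ) (M : C → Prop)
    (e : C) : Prop :=
  e ∈ gr (2 * n) ∧ M e ∧ ∀ y, s (e * p (s (e * p y))) = s (e * p y)

/-- All Tate elements which are fixed by `E` satisfy `M`. -/
def TateFixed {χ : Γ →* Kˣ} {gr : ℕ → Submodule K A} {n : ℕ} {tr : A →ₗ[K] K} {Z : ℕ → Set A}
    (G : GalAlg Γ χ gr n tr Z) (M : A → Prop) (E : A → A) : Prop :=
  ∀ j c, TateCls χ gr G.act j c → E c = c → M c

end Alg

variable {k : Type u} [Field k] {𝒱 : VarClass k} {ops : CycleOps 𝒱}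
  {W : WeilCohomology.{u, 0} ops} {Γ : Type} [Group Γ]

/-- `e` is a motivated class of degree `2 dim Z` on `Z × Z` and its operator is idempotent: `(Z, e)` is
a motive. -/
def Motive (Z : 𝒱.Obj) (e : W.H (Z.prod Z)) : Prop :=
  IsMotProj (W.map (fst Z Z)) (W.push (snd Z Z)) (W.gr (Z.prod Z)) Z.dim
    (IsMotivated W (Z.prod Z)) e

/-- **The motivic Tate conjecture** for the direct summand of `Y` which is cut out by the operator
`E`: every Tate class of degree `2 j` on `Y` which is fixed by `E` is motivated. -/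
def MotTate (G : GaloisData W Γ) (Y : 𝒱.Obj) (E : W.H Y → W.H Y) : Prop :=
  TateFixed (G.on Y) (IsMotivated W Y) E

end Pool.Agent.X227.NP
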