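import Pool.Agent.X227.NP.Fam
import Pool.Agent.X227.NP.MTDefs
import Pool.Agent.X227.MM.Main

/-!
# The motivic Tate conjecture on products
-/

open CategoryTheory AlgebraicGeometry
open Pool.Agent.Y132.EP (DG tow idm map_idm exm map_exm)

universe u

namespace Pool.Agent.X227.NP

open Pool.Agent.H914 Pool.Agent.H914.VarClass Pool.Agent.H914.VarClass.Obj
  Pool.Agent.H914.WeilCohomology Pool.Agent.Y132.AH Pool.Agent.X227.MS Pool.Agent.H281R3.HT
  Pool.Agent.W552 Pool.Agent.TH125.Gal Pool.Agent.Y132.AF Pool.Agent.X227.MM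

variable {k : Type u} [Field k] {𝒱 : VarClass k} {ops : CycleOps 𝒱} {ι : Type}
  {W : WeilCohomology.{u, 0} ops} {Γ : Type} [Group Γ]

section op

/-- The operator commutes with the projections to the degrees. -/
def HomOp {Y : 𝒱.Obj} (E : W.H Y →ₗ[W.K] W.H Y) : Prop :=
  ∀ m y, prj (W.isInternal Y) m (E y) = E (prj (W.isInternal Y) m y)

theorem homOp_of {Y : 𝒱.Obj} {E : W.H Y →ₗ[W.K] W.H Y}
    (h : ∀ m, ∀ y ∈ W.gr Y m, E y ∈ W.gr Y m) : HomOp E := by
  intro m y
  refine int_ind (p := fun y => prj (W.isInternal Y) m (E y) = E (prj (W.isInternal Y) m y))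
    (W.isInternal Y) y (fun l y hy => ?_) (by simp) fun x y hx hy => ?_
  · by_cases hl : l = m
    · subst hl
      rw [prj_same _ hy, prj_same _ (h l y hy)]
    · rw [prj_ne _ hl hy, prj_ne _ hl (h l y hy), map_zero]
  · rw [map_add, map_add, map_add, map_add, hx, hy]

theorem HomOp.gr {Y : 𝒱.Obj} {E : W.H Y →ₗ[W.K] W.H Y} (h : HomOp E) {m : ℕ} {y : W.H Y}
    (hy : y ∈ W.gr Y m) : E y ∈ W.gr Y m := by
  have h1 := h m y
  rw [prj_same _ hy] at h1
  rw [← h1]
  exact prj_mem _ _ _

theorem HomOp.prod {Y : 𝒱.Obj} {E : W.H Y →ₗ[W.K] W.H Y} (h : HomOp E) (A : 𝒱.Obj) :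
    HomOp (prodOp A E) := by
  intro m y
  refine W.kunneth_induction (p := fun y => prj (W.isInternal (A.prod Y)) m (prodOp A E y) =
    prodOp A E (prj (W.isInternal (A.prod Y)) m y)) ?_ ?_ y
  · intro a b ha hb
    rw [map_add, map_add, map_add, map_add, ha, hb]
  · intro i j a ha b hb
    have h1 : W.map (Obj.fst A Y) a * W.map (Obj.snd A Y) b ∈ W.gr (A.prod Y) (i + j) :=
      W.mul_mem (W.map_mem _ ha) (W.map_mem _ hb)
    have h2 : W.map (Obj.fst A Y) a * W.map (Obj.snd A Y) (E b) ∈ W.gr (A.prod Y) (i + j) :=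
      W.mul_mem (W.map_mem _ ha) (W.map_mem _ (h.gr hb))
    rw [prodOp_ext]
    by_cases hm : i + j = m
    · subst hm
      rw [prj_same _ h1, prj_same _ h2, prodOp_ext]
    · rw [prj_ne _ hm h1, prj_ne _ hm h2, map_zero]

theorem homOp_nc {Z : 𝒱.Obj} {e : W.H (Z.prod Z)} (he : e ∈ W.gr (Z.prod Z) (2 * Z.dim)) :
    HomOp (ncOp e) := by
  refine homOp_of fun m y hy => ?_
  refine mem_of_prj (W.isInternal Z) fun l hl => ?_
  change prj (W.isInternal Z) l (W.push (snd Z Z) (e * W.map (fst Z Z) y)) = 0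
  refine gr_push (snd Z Z) (W.mul_mem he (W.map_mem _ hy)) ?_
  rw [dim_prod]
  omega

theorem homOp_list (X : ι → 𝒱.Obj) {Z : 𝒱.Obj} {E : W.H Z →ₗ[W.K] W.H Z} (h : HomOp E)
    (L : List ι) : HomOp (listOp X E L) := by
  induction L with
  | nil => exact h
  | cons i L ih => exact ih.prod (X i)

theorem idem_list (X : ι → 𝒱.Obj) {Z : 𝒱.Obj} {E : W.H Z →ₗ[W.K] W.H Z}
    (h : ∀ y, E (E y) = E y) (L : List ι) (y : W.H (prodList X Z L)) :
    listOp X E L (listOp X E L y) = listOp X E L y := by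
  induction L with
  | nil => exact h y
  | cons i L ih => exact prodOp_comp (X i) _ ih y

theorem overOp_eq (X : ι → 𝒱.Obj) {Z : 𝒱.Obj} {e : W.H (Z.prod Z)} {n : ℕ}
    (he : e ∈ W.gr (Z.prod Z) (2 * n)) (L : List ι) :
    overOp X e L = fun y => listOp X (ncOp e) L y := by
  funext y
  induction L with
  | nil =>
    change W.push (snd Z Z) (W.map (𝟙 (Z.prod Z)) e * W.map (fst Z Z) y) = _
    rw [W.map_id]
    rfl
  | cons i L ih =>
    change W.push (idm (X i) (listMap X (snd Z Z) L))
      (W.map (snd (X i) (prodList X (Z.prod Z) L) ≫ listSnd X (Z.prod Z) L) e *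
        W.map (idm (X i) (listMap X (fst Z Z) L)) y) = MS.prodOp (X i) (listOp X (ncOp e) L) y
    rw [W.map_comp]
    refine kun_ext (L := fun y => W.push (Pool.Agent.Y132.EP.idm (X i) (listMap X (Obj.snd Z Z) L))
      (W.map (Obj.snd (X i) (prodList X (Z.prod Z) L)) (W.map (listSnd X (Z.prod Z) L) e) *
        W.map (Pool.Agent.Y132.EP.idm (X i) (listMap X (Obj.fst Z Z) L)) y))
      (L' := fun y => MS.prodOp (X i) (listOp X (ncOp e) L) y)
      (fun a b => by beta_reduce; rw [map_add, mul_add, map_add])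
      (fun a b => map_add _ _ _) (fun a b => ?_) y
    beta_reduce
    rw [prodOp_ext, map_idm, ← mul_assoc, W.even_comm (W.map_mem (Obj.snd (X i)
      (prodList X (Z.prod Z) L)) (W.map_mem (listSnd X (Z.prod Z) L) he)), mul_assoc, ← map_mul,
      Pool.Agent.X227.DN.push_idm, ← ih b]
    rfl

end op

section mot

variable (G : GaloisData W Γ)

theorem mot_iff' {Y : 𝒱.Obj} {E : W.H Y →ₗ[W.K] W.H Y} (hE : HomOp E) :
    MotTate G Y (fun y => E y) ↔ Sub (ofSys (tateSys G)) (ofSys (motivatedSys W)) Y E := by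
  constructor
  · intro h y hy
    refine ⟨?_, hy.2⟩
    have h1 : y ∈ Submodule.span W.K {c | ∃ j, IsTate G Y j c} := hy.1
    have key : ∀ m, (¬Even m → prj (W.isInternal Y) m y = 0) ∧ ∀ j, m = 2 * j →
        IsTate G Y j (prj (W.isInternal Y) m y) := by
      intro m
      clear hy
      induction h1 using Submodule.span_induction with
      | mem c hc =>
        obtain ⟨i, hi⟩ := hc
        refine ⟨fun hm => prj_ne _ (fun h => hm (by rw [← h]; exact even_two_mul i)) hi.1, ?_⟩
        rintro j rfl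
        by_cases hij : i = j
        · subst hij
          rw [prj_same _ hi.1]
          exact hi
        · rw [prj_ne _ (by omega) hi.1]
          exact isTate_zero G Y j
      | zero => exact ⟨fun _ => map_zero _, fun j _ => by rw [map_zero]; exact isTate_zero G Y j⟩
      | add x y _ _ hx hy =>
        exact ⟨fun h => by rw [map_add, hx.1 h, hy.1 h, add_zero],
          fun j hj => by rw [map_add]; exact isTate_add G (hx.2 j hj) (hy.2 j hj)⟩
      | smul r x _ hx =>
        exact ⟨fun h => by rw [map_smul, hx.1 h, smul_zero],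
          fun j hj => by rw [map_smul]; exact isTate_smul G _ (hx.2 j hj)⟩
    obtain ⟨s, hs⟩ := eq_sum_prj (W.isInternal Y) y
    rw [hs s subset_rfl]
    refine Submodule.sum_mem _ fun m _ => ?_
    by_cases hm : Even m
    · obtain ⟨j, hj⟩ := hm
      rw [motivated_eq]
      refine h j _ ((key m).2 j (by omega)) ?_
      change E (prj (W.isInternal Y) m y) = _
      rw [← hE m y, mem_fixed.1 hy.2]
    · rw [(key m).1 hm]
      exact Submodule.zero_mem _
  · intro h j c hc hEc
    rw [← motivated_eq]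
    exact (h c ⟨Submodule.subset_span ⟨j, hc⟩, hEc⟩).1

theorem tateComp_tate {Y : 𝒱.Obj} {y : W.H Y}
    (hy : y ∈ Submodule.span W.K {c | ∃ j, IsTate G Y j c}) : TateComp G.χ (G.var Y) y := by
  have key : ∀ m, (¬Even m → prj (W.isInternal Y) m y = 0) ∧ ∀ j, m = 2 * j →
      IsTate G Y j (prj (W.isInternal Y) m y) := by
    intro m
    induction hy using Submodule.span_induction with
    | mem c hc =>
      obtain ⟨i, hi⟩ := hc
      refine ⟨fun hm => prj_ne _ (fun h => hm (by rw [← h]; exact even_two_mul i)) hi.1, ?_⟩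
      rintro j rfl
      by_cases hij : i = j
      · subst hij
        rw [prj_same _ hi.1]
        exact hi
      · rw [prj_ne _ (by omega) hi.1]
        exact isTate_zero G Y j
    | zero => exact ⟨fun _ => map_zero _, fun j _ => by rw [map_zero]; exact isTate_zero G Y j⟩
    | add x y _ _ hx hy =>
      exact ⟨fun h => by rw [map_add, hx.1 h, hy.1 h, add_zero],
        fun j hj => by rw [map_add]; exact isTate_add G (hx.2 j hj) (hy.2 j hj)⟩
    | smul r x _ hx =>
      exact ⟨fun h => by rw [map_smul, hx.1 h, smul_zero],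
        fun j hj => by rw [map_smul]; exact isTate_smul G _ (hx.2 j hj)⟩
  intro m
  by_cases hm : Even m
  · obtain ⟨j, hj⟩ := hm
    exact Or.inr ⟨j, by omega, ((key m).2 j (by omega)).2⟩
  · exact Or.inl ((key m).1 hm)

theorem mot_list (X : ι → 𝒱.Obj) {Z : 𝒱.Obj} {e : W.H (Z.prod Z)} (he : Motive Z e)
    (L : List ι) : MotTate G (prodList X Z L) (overOp X e L) ↔
      Sub (ofSys (tateSys G)) (ofSys (motivatedSys W)) (prodList X Z L)
        (listOp X (ncOp e) L) := by
  rw [overOp_eq X he.1]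
  exact mot_iff' G (homOp_list X (homOp_nc he.1) L)

/-- **The motivic Tate conjecture on products.** -/
theorem mt_general [IsAlgClosed W.K] [DecidableEq ι] {X : ι → 𝒱.Obj} (Z : 𝒱.Obj)
    (hX : ∀ i, OddMiddle W (X i)) (hG : BigFamily G X) :
    ∃ B : Finset ι, ∑ i ∈ B, trDim W (X i) ≤ totDim W Z ∧ (∀ i ∈ B, ¬MonApart G (X i) Z) ∧
      ∀ e : W.H (Z.prod Z), Motive Z e → ∀ L : List ι,
        (MotTate G (prodList X Z L) (overOp X e L) ↔
          ∀ L' : List ι, L'.Sublist L → SmallDim W X Z B L' →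
            MotTate G (prodList X Z L') (overOp X e L')) := by
  have hX' := bigFamily_ad G hX hG
  obtain ⟨B, h1, h2, h3⟩ := sys_iff (fun Y => G.act Y) (X := X) (Z := Z) hX' (var_graded G Z)
    (fun L Y hY => by
      have h4 := var_tower_eq G hY
      rw [h4])
  refine ⟨B, h1, fun i hi h => not_stable G h (h2 i hi), fun e he L => ?_⟩
  have h4 := h3 (ofSys (tateSys G)) (ofSys (motivatedSys W)) (ncOp e) L
    fun Y E y hy => tateComp_tate G hy.1
  rw [mot_list G X he, h4]
  constructor
  · intro h L' hsub _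
    rw [mot_list G X he]
    have h5 := sys_sublist (ℳ := ofSys (tateSys G)) (𝒩 := ofSys (motivatedSys W))
      (Z := Z) (E := ncOp e) (fun i => (hX i).homEqNum) (fun i => one_ne (hG.big i)) hsub
    exact h5 (h4.2 h)
  · intro h L' hsub hsmall
    exact (mot_list G X he L').1 (h L' hsub (small_list G hsmall))

theorem mt_separated [IsAlgClosed W.K] {X : ι → 𝒱.Obj} (Z : 𝒱.Obj)
    (hX : ∀ i, OddMiddle W (X i)) (hG : BigFamily G X) (hsep : ∀ i, MonApart G (X i) Z) (n : ℕ)
    (e : W.H ((powN Z n).prod (powN Z n))) (he : Motive (powN Z n) e) (L : List ι) :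
    MotTate G (prodList X (powN Z n) L) (overOp X e L) ↔
      MotTate G (powN Z n) (baseOp e) := by
  classical
  have h0 : overOp X e [] = baseOp e := by
    funext y
    change W.push (snd (powN Z n) (powN Z n)) (W.map (𝟙 ((powN Z n).prod (powN Z n))) e *
      W.map (fst (powN Z n) (powN Z n)) y) = _
    rw [W.map_id]
    rfl
  obtain ⟨B, -, h2, h3⟩ := mt_general G (powN Z n) hX hG
  constructor
  · intro h
    rw [mot_list G X he] at h
    have h5 := sys_sublist (ℳ := ofSys (tateSys G)) (𝒩 := ofSys (motivatedSys W))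
      (Z := powN Z n) (E := ncOp e) (fun i => (hX i).homEqNum) (fun i => one_ne (hG.big i))
      (List.nil_sublist L) h
    have h6 := (mot_list G X he []).2 h5
    rwa [h0] at h6
  · intro h
    rw [h3 e he L]
    intro L' _ hs
    have h5 : L' = [] := by
      rw [List.eq_nil_iff_forall_not_mem]
      exact fun i hi => h2 i (hs.mem i hi) (mon_pow G (hsep i) n)
    rw [h5, h0]
    exact h

end mot

end Pool.Agent.X227.NP
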