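import Pool.Agent.X227.NP.FDefs

/-!
# The Mumford-Tate conjecture for motives: definitions
-/

open CategoryTheory AlgebraicGeometry

universe u

namespace Pool.Agent.X227.NP

open Pool.Agent.H914 Pool.Agent.H914.VarClass Pool.Agent.H914.VarClass.Obj
  Pool.Agent.H914.WeilCohomology Pool.Agent.Y132.AH Pool.Agent.Y132.AF

section Alg

variable {K A B Γ : Type} [Field K] [Ring A] [Algebra K A] [Ring B] [Algebra K B] [Group Γ]

/-- `N'` is the conjugate by the operator `R g` of the operator `N` on `T`, which is skew for the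
form `tr (x * y)`. -/
def ConjOn {G : Type} (tr : A →ₗ[K] K) (T : Submodule K A) (R : G → A → A) (g : G)
    (N N' : skewOps tr T) : Prop :=
  ∀ t t' : T, (t' : A) = R g t → (N'.1 t' : A) = R g (N.1 t)

/-- The representations of `G` on the skew operators on `T` and `T'` are isomorphic. -/
def IsoOn {G : Type} (tr : A →ₗ[K] K) (T : Submodule K A) (R : G → A → A) (tr' : B →ₗ[K] K)
    (T' : Submodule K B) (R' : G → B → B) : Prop :=
  RelIso K (ConjOn tr T R) (ConjOn tr' T' R')

/-- The dimension `n` is odd, `T` is in the middle degree; the conjugates of the torus of the Hodge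
structure, and also the group `Γ`, act irreducibly on the skew operators on `T`; some element of `Γ`
has two eigenvalues on `T` whose quotient is not a root of unity. -/
structure BigOn {χ : Γ →* Kˣ} {gr : ℕ → Submodule K A} {n : ℕ} {tr : A →ₗ[K] K} {C : ℕ → Set A}
    (Ψ : HodgeAlg gr n tr C) (G : GalAlg Γ χ gr n tr C) (T : Submodule K A) : Prop where
  odd : Odd n
  middle : T ≤ gr n
  hodge : RelIrr K (ConjOn tr T (conjTorus Ψ))
  galois : RelIrr K (ConjOn tr T fun g x => G.act g x)
  hyperbolic : HypAct T G.act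

/-- The representations of the conjugates of the torus on the skew operators on `T` and `T'` are not
isomorphic, and also the representations of `Γ`. -/
def ApartOn {χ : Γ →* Kˣ} {gr : ℕ → Submodule K A} {n : ℕ} {tr : A →ₗ[K] K} {C : ℕ → Set A}
    {gr' : ℕ → Submodule K B} {n' : ℕ} {tr' : B →ₗ[K] K} {C' : ℕ → Set B}
    (Ψ : HodgeAlg gr n tr C) (G : GalAlg Γ χ gr n tr C) (T : Submodule K A)
    (Ψ' : HodgeAlg gr' n' tr' C') (G' : GalAlg Γ χ gr' n' tr' C') (T' : Submodule K B) : Prop :=
  ¬IsoOn tr T (conjTorus Ψ) tr' T' (conjTorus Ψ') ∧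
    ¬IsoOn tr T (fun g x => G.act g x) tr' T' fun g x => G'.act g x

/-- Among the elements of `V` the Tate elements of degree `2 j` are the linear combinations of Hodge
classes of degree `2 j`, for all `j`. -/
def TateHodgeIn {χ : Γ →* Kˣ} {gr : ℕ → Submodule K A} {n : ℕ} {tr : A →ₗ[K] K} {C : ℕ → Set A}
    (Ψ : HodgeAlg gr n tr C) (G : GalAlg Γ χ gr n tr C) (V : Set A) : Prop :=
  ∀ j, ∀ c ∈ V, TateCls χ gr G.act j c ↔ c ∈ Submodule.span K {c | HodgeCls Ψ j c}

/-- `V` is a linear subspace of `gr m`. -/
def PieceOf (gr : ℕ → Submodule K A) (m : ℕ) (V : Set A) : Prop :=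
  ∃ U : Submodule K A, U ≤ gr m ∧ V = U

/-- The sums of the products `p a * q v` with `v ∈ V`. -/
def crossSums {C : Type} [Ring C] [Algebra K C] (p : A →ₐ[K] C) (q : B →ₐ[K] C) (V : Set B) :
    Set C :=
  AddSubgroup.closure {c | ∃ a, ∃ v ∈ V, c = p a * q v}

end Alg

variable {k : Type u} [Field k] {𝒱 : VarClass k} {ops : CycleOps 𝒱}
  {W : WeilCohomology.{u, 0} ops} {Γ : Type} [Group Γ]

/-- The `X i` are odd-dimensional varieties with `hom = num` and the transcendental cohomology `T i`
in the middle degree; the Mumford-Tate group and also the group `Γ` act irreducibly on the operators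
on `T i` which are skew for the intersection form, some element of `Γ` has two eigenvalues on `T i`
whose quotient is not a root of unity, and these adjoint representations are pairwise not isomorphic,
for the Mumford-Tate group and for `Γ`. -/
structure TwoFamily (Ψ : HodgeData W) (G : GaloisData W Γ) {ι : Type} (X : ι → 𝒱.Obj) : Prop where
  homEqNum : ∀ i, HomEqNum W (X i)
  big : ∀ i, BigOn (Ψ.on (X i)) (G.on (X i)) (transcendental W (X i))
  apart : ∀ i j, i ≠ j → ApartOn (Ψ.on (X i)) (G.on (X i)) (transcendental W (X i))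
    (Ψ.on (X j)) (G.on (X j)) (transcendental W (X j))

/-- `V` is a linear subspace of `H^m(Z)`. -/
def InDegree {Z : 𝒱.Obj} (V : Set (W.H Z)) (m : ℕ) : Prop := PieceOf (W.gr Z) m V

/-- The classes in `H(P) ⊗ V ⊆ H(P × Z)`, for a subspace `V` of `H(Z)` and the product `P` over the
list: the sums of the classes `pr_1^* a * pr_2^* v`. -/
noncomputable def overSet {ι : Type} (X : ι → 𝒱.Obj) {Z : 𝒱.Obj} (V : Set (W.H Z)) :
    (L : List ι) → Set (W.H (prodList X Z L))
  | [] => V
  | i :: L => crossSums (W.map (fst (X i) (prodList X Z L))) (W.map (snd (X i) (prodList X Z L)))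
      (overSet X V L)

/-- **The Mumford-Tate conjecture** for the classes in `H(P) ⊗ V`: the Tate classes of degree `2 j`
are the linear combinations of Hodge classes of degree `2 j`, for all `j`. -/
def MTIn (Ψ : HodgeData W) (G : GaloisData W Γ) {ι : Type} (X : ι → 𝒱.Obj) {Z : 𝒱.Obj}
    (V : Set (W.H Z)) (L : List ι) : Prop :=
  TateHodgeIn (Ψ.on (prodList X Z L)) (G.on (prodList X Z L)) (overSet X V L)

end Pool.Agent.X227.NP
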