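import Pool.Agent.X227.NP.MTate
import Pool.Agent.X227.NP.HV
import Pool.Agent.X227.NP.TwoDefs
import Pool.Agent.X227.MM.Abs

/-!
# The Mumford-Tate conjecture on products with motives
-/

open CategoryTheory AlgebraicGeometry
open Pool.Agent.Y132.EP (DG tow idm map_idm exm map_exm)

universe u

namespace Pool.Agent.X227.NP

open Pool.Agent.H914 Pool.Agent.H914.VarClass Pool.Agent.H914.VarClass.Obj
  Pool.Agent.H914.WeilCohomology Pool.Agent.Y132.AH Pool.Agent.X227.MS Pool.Agent.H281R3.HT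
  Pool.Agent.W552 Pool.Agent.TH125.Gal Pool.Agent.Y132.AF Pool.Agent.X227.MM

variable {k : Type u} [Field k] {𝒱 : VarClass k} {ops : CycleOps 𝒱} {ι : Type}
  {W : WeilCohomology.{u, 0} ops} {Γ : Type} [Group Γ]

section proj

/-- A projection onto a homogeneous subspace. -/
theorem exists_proj {Z : 𝒱.Obj} {m : ℕ} {V : Submodule W.K (W.H Z)} (hV : V ≤ W.gr Z m) :
    ∃ F : W.H Z →ₗ[W.K] W.H Z, HomOp F ∧ (∀ v ∈ V, F v = v) ∧ ∀ y, F y ∈ V := by
  obtain ⟨V', hV'⟩ := Submodule.exists_isCompl V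
  let p : W.H Z →ₗ[W.K] V := Submodule.projectionOnto V V' hV'
  let F : W.H Z →ₗ[W.K] W.H Z := V.subtype ∘ₗ p ∘ₗ prj (W.isInternal Z) m
  have hF : ∀ y, F y = (p (prj (W.isInternal Z) m y) : W.H Z) := fun y => rfl
  have hmem : ∀ y, F y ∈ V := fun y => (p (prj (W.isInternal Z) m y)).2
  refine ⟨F, fun l y => ?_, fun v hv => ?_, hmem⟩
  · by_cases hl : m = l
    · subst hl
      rw [prj_same _ (hV (hmem y)), hF, hF, prj_same _ (prj_mem _ _ _)]
    · rw [prj_ne _ hl (hV (hmem y)), hF, prj_ne _ (Ne.symm hl) (prj_mem _ _ _), map_zero]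
      rfl
  · rw [hF, prj_same _ (hV hv)]
    exact congrArg Subtype.val (Submodule.projectionOnto_apply_left hV' ⟨v, hv⟩)

theorem over_zero {X : ι → 𝒱.Obj} {Z : 𝒱.Obj} {U : Submodule W.K (W.H Z)} (L : List ι) :
    (0 : W.H (prodList X Z L)) ∈ overSet X (U : Set (W.H Z)) L := by
  cases L with
  | nil => exact U.zero_mem
  | cons i L => exact AddSubgroup.zero_mem _

theorem over_add {X : ι → 𝒱.Obj} {Z : 𝒱.Obj} {U : Submodule W.K (W.H Z)} (L : List ι)
    {x y : W.H (prodList X Z L)} (hx : x ∈ overSet X (U : Set (W.H Z)) L)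
    (hy : y ∈ overSet X (U : Set (W.H Z)) L) : x + y ∈ overSet X (U : Set (W.H Z)) L := by
  cases L with
  | nil => exact U.add_mem hx hy
  | cons i L => exact AddSubgroup.add_mem _ hx hy

theorem cross_fixed {A B : 𝒱.Obj} {F : W.H B →ₗ[W.K] W.H B} {V : Set (W.H B)}
    (h : ∀ v ∈ V, F v = v) {c : W.H (A.prod B)}
    (hc : c ∈ crossSums (W.map (fst A B)) (W.map (snd A B)) V) : prodOp A F c = c := by
  have hc' : c ∈ AddSubgroup.closure {c | ∃ a, ∃ v ∈ V,
    c = W.map (fst A B) a * W.map (snd A B) v} := hc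
  clear hc
  induction hc' using AddSubgroup.closure_induction with
  | mem x hx =>
    obtain ⟨a, v, hv, rfl⟩ := hx
    rw [prodOp_ext, h v hv]
  | zero => exact map_zero _
  | add x y hx hy hx' hy' => rw [map_add, hx', hy']
  | neg x hx hx' => rw [map_neg, hx']

theorem over_fixed {X : ι → 𝒱.Obj} {Z : 𝒱.Obj} {V : Set (W.H Z)}
    {F : W.H Z →ₗ[W.K] W.H Z} (hF : ∀ v ∈ V, F v = v) {L : List ι} :
    ∀ c ∈ overSet X V L, listOp X F L c = c := by
  induction L with
  | nil => exact hF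
  | cons i L ih => exact fun c hc => cross_fixed ih hc

theorem over_range {X : ι → 𝒱.Obj} {Z : 𝒱.Obj} {U : Submodule W.K (W.H Z)}
    {F : W.H Z →ₗ[W.K] W.H Z} (hF : ∀ y, F y ∈ U) (L : List ι) (c : W.H (prodList X Z L)) :
    listOp X F L c ∈ overSet X (U : Set (W.H Z)) L := by
  induction L with
  | nil => exact hF c
  | cons i L ih =>
    refine W.kunneth_induction (p := fun c => prodOp (X i) (listOp X F L) c ∈
      overSet X (U : Set (W.H Z)) (i :: L)) ?_ ?_ c
    · intro a b ha hb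
      rw [map_add]
      exact over_add (i :: L) ha hb
    · intro _ _ a _ b _
      rw [prodOp_ext]
      exact AddSubgroup.subset_closure ⟨a, _, ih b, rfl⟩

theorem over_iff {X : ι → 𝒱.Obj} {Z : 𝒱.Obj} {U : Submodule W.K (W.H Z)}
    {F : W.H Z →ₗ[W.K] W.H Z} (hF : ∀ v ∈ U, F v = v) (hF' : ∀ y, F y ∈ U) {L : List ι}
    {c : W.H (prodList X Z L)} : c ∈ overSet X (U : Set (W.H Z)) L ↔ listOp X F L c = c :=
  ⟨over_fixed hF c, fun h => by
    rw [← h]
    exact over_range hF' L c⟩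

end proj

section two

variable (Ψ : HodgeData W) (G : GaloisData W Γ)

theorem two_iff {Y : 𝒱.Obj} {E : W.H Y →ₗ[W.K] W.H Y} (hE : HomOp E) :
    TateHodgeIn (Ψ.on Y) (G.on Y) {c | E c = c} ↔
      Sub (ofSys (tateSys G)) (ofSys (gcls_hodge Ψ).sys) Y E ∧
        Sub (ofSys (gcls_hodge Ψ).sys) (ofSys (tateSys G)) Y E := by
  have hT : ∀ y ∈ Submodule.span W.K {c | ∃ j, IsTate G Y j c}, ∀ m,
      (¬Even m → prj (W.isInternal Y) m y = 0) ∧ ∀ j, m = 2 * j →
        IsTate G Y j (prj (W.isInternal Y) m y) := by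
    intro y hy m
    induction hy using Submodule.span_induction with
    | mem c hc =>
      obtain ⟨i, hi⟩ := hc
      refine ⟨fun hm => prj_ne _ (fun h => hm (by rw [← h]; exact even_two_mul i)) hi.1, ?_⟩
      rintro j rfl
      by_cases hij : i = j
      · subst hij
        rw [prj_same _ hi.1]
        exact hi
      · rw [prj_ne _ (by omega) hi.1]
        exact isTate_zero G Y j
    | zero => exact ⟨fun _ => map_zero _, fun j _ => by rw [map_zero]; exact isTate_zero G Y j⟩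
    | add x y _ _ hx hy =>
      exact ⟨fun h => by rw [map_add, hx.1 h, hy.1 h, add_zero],
        fun j hj => by rw [map_add]; exact isTate_add G (hx.2 j hj) (hy.2 j hj)⟩
    | smul r x _ hx =>
      exact ⟨fun h => by rw [map_smul, hx.1 h, smul_zero],
        fun j hj => by rw [map_smul]; exact isTate_smul G _ (hx.2 j hj)⟩
  have hcomp : ∀ y : W.H Y, E y = y → ∀ m, E (prj (W.isInternal Y) m y) =
      prj (W.isInternal Y) m y := by
    intro y hy m
    rw [← hE m y, hy]
  have hTspan : ∀ j (c : W.H Y), c ∈ Submodule.span W.K {c | IsTate G Y j c} →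
      IsTate G Y j c := by
    intro j c hc
    induction hc using Submodule.span_induction with
    | mem x hx => exact hx
    | zero => exact isTate_zero G Y j
    | add x y _ _ hx hy => exact isTate_add G hx hy
    | smul r x _ hx => exact isTate_smul G r hx
  have hHgr : ∀ j (c : W.H Y), c ∈ Submodule.span W.K {c | IsHodge Ψ Y j c} →
      c ∈ W.gr Y (2 * j) := fun j c hc =>
    (Submodule.span_le.2 fun c hc => hodge_gr Ψ hc : _ ≤ W.gr Y (2 * j)) hc
  have hsp : ∀ j (c : W.H Y), c ∈ Submodule.span W.K {c | IsHodge Ψ Y j c} →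
      c ∈ Submodule.span W.K {c | ∃ j, IsHodge Ψ Y j c} := by
    intro j c hc
    refine Submodule.span_mono ?_ hc
    rintro c hc
    exact ⟨j, hc⟩
  constructor
  · intro h
    constructor
    · intro y hy
      refine ⟨?_, hy.2⟩
      obtain ⟨s, hs⟩ := eq_sum_prj (W.isInternal Y) y
      rw [hs s subset_rfl]
      refine Submodule.sum_mem _ fun m _ => ?_
      by_cases hm : Even m
      · obtain ⟨j, hj⟩ := hm
        have h1 := (h j _ (hcomp y (mem_fixed.1 hy.2) m)).1 ((hT y hy.1 m).2 j (by omega))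
        refine Submodule.span_mono ?_ h1
        rintro c hc
        exact ⟨j, hc⟩
      · rw [(hT y hy.1 m).1 hm]
        exact Submodule.zero_mem _
    · intro y hy
      refine ⟨?_, hy.2⟩
      obtain ⟨s, hs⟩ := eq_sum_prj (W.isInternal Y) y
      rw [hs s subset_rfl]
      refine Submodule.sum_mem _ fun m _ => ?_
      rcases hodgeComp_span Ψ hy.1 m with h1 | ⟨j, rfl, h1⟩
      · rw [h1]
        exact Submodule.zero_mem _
      · exact Submodule.subset_span ⟨j, (h j _ (hcomp y (mem_fixed.1 hy.2) _)).2 h1⟩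
  · rintro ⟨h1, h2⟩ j c hc
    constructor
    · intro hTc
      exact span_graded (P := IsHodge Ψ Y) (fun j c hc => hodge_gr Ψ hc) hTc.1
        (h1 c ⟨Submodule.subset_span ⟨j, hTc⟩, hc⟩).1
    · intro hHc
      exact hTspan j c (span_graded (P := IsTate G Y) (fun j c hc => hc.1) (hHgr j c hHc)
        (h2 c ⟨hsp j c hHc, hc⟩).1)

theorem mtIn_iff {X : ι → 𝒱.Obj} {Z : 𝒱.Obj} {V : Submodule W.K (W.H Z)}
    {F : W.H Z →ₗ[W.K] W.H Z} (h1 : HomOp F) (h2 : ∀ v ∈ V, F v = v) (h3 : ∀ y, F y ∈ V)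
    (L : List ι) : MTIn Ψ G X (V : Set (W.H Z)) L ↔
      Sub (ofSys (tateSys G)) (ofSys (gcls_hodge Ψ).sys) (prodList X Z L) (listOp X F L) ∧
        Sub (ofSys (gcls_hodge Ψ).sys) (ofSys (tateSys G)) (prodList X Z L)
          (listOp X F L) := by
  rw [← two_iff Ψ G (homOp_list X h1 L)]
  exact forall_congr' fun j => forall_congr' fun c => imp_congr_left (over_iff h2 h3)

variable {Ψ G} in
theorem TwoFamily.gal {X : ι → 𝒱.Obj} (h : TwoFamily Ψ G X) : BigFamily G X where
  big i := ⟨(h.big i).galois, (h.big i).hyperbolic⟩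
  adjoint i j hij := (h.apart i j hij).2

variable {Ψ G} in
theorem TwoFamily.middle {X : ι → 𝒱.Obj} (h : TwoFamily Ψ G X) (i : ι) : OddMiddle W (X i) where
  odd := (h.big i).odd
  homEqNum := h.homEqNum i
  middle := (h.big i).middle

variable {Ψ G} in
theorem TwoFamily.sp {X : ι → 𝒱.Obj} (h : TwoFamily Ψ G X) : SpFamily Ψ X where
  var i := ⟨⟨(h.big i).odd, (h.big i).middle, by
    obtain ⟨_, x, hx, -, -, hx0, -⟩ := (h.big i).hyperbolic
    intro h0
    rw [h0] at hx
    exact hx0 ((Submodule.mem_bot _).1 hx), (h.big i).hodge⟩, h.homEqNum i⟩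
  adjoint i j hij := (h.apart i j hij).1

/-- **The Mumford-Tate conjecture on products with motives.** -/
theorem two_general [IsAlgClosed W.K] [DecidableEq ι] {X : ι → 𝒱.Obj} (Z : 𝒱.Obj)
    (hX : TwoFamily Ψ G X) :
    ∃ B : Finset ι, ∑ i ∈ B, trDim W (X i) ≤ 2 * totDim W Z ∧
      (∀ i ∈ B, ¬(MonApart G (X i) Z ∧ TypeSep Ψ (X i) Z)) ∧
      ∀ m (V : Set (W.H Z)), InDegree V m → ∀ L : List ι,
        (MTIn Ψ G X V L ↔ ∀ L' : List ι, L'.Sublist L → SmallDim W X Z B L' →
          MTIn Ψ G X V L') := by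
  have hX' := bigFamily_ad G hX.middle hX.gal
  obtain ⟨B, h1, h2, h3⟩ := sys_iff (fun Y => G.act Y) (X := X) (Z := Z) hX' (var_graded G Z)
    (fun L Y hY => by
      have h4 := var_tower_eq G hY
      rw [h4])
  obtain ⟨B', h1', h2', h3'⟩ := hodge_sys Ψ Z hX.sp
  refine ⟨B ∪ B', ?_, fun i hi h => ?_, fun m V hV L => ?_⟩
  · have h4 := Finset.sum_union_inter (s₁ := B) (s₂ := B') (f := fun i => trDim W (X i))
    have h5 : ∑ i ∈ B, trDim W (X i) ≤ totDim W Z := h1
    omega
  · rcases Finset.mem_union.1 hi with hi | hi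
    · exact not_stable G h.1 (h2 i hi)
    · exact h2' i hi h.2
  · obtain ⟨U, hU, rfl⟩ := hV
    obtain ⟨F, hF1, hF2, hF3⟩ := exists_proj hU
    have e := fun L => mtIn_iff Ψ G (X := X) hF1 hF2 hF3 L
    rw [e L]
    constructor
    · rintro ⟨ha, hb⟩ L' hsub _
      rw [e L']
      exact ⟨sys_sublist (fun i => (hX.middle i).homEqNum) (sp_one hX.sp) hsub ha,
        sys_sublist (fun i => (hX.middle i).homEqNum) (sp_one hX.sp) hsub hb⟩
    · intro h
      have h4 := h3 (ofSys (tateSys G)) (ofSys (gcls_hodge Ψ).sys) F L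
        fun Y E y hy => tateComp_tate G hy.1
      have h4' := h3' (ofSys (gcls_hodge Ψ).sys) (ofSys (tateSys G)) F L
        fun Y E y hy => hodgeComp_span Ψ hy.1
      exact ⟨h4.2 fun L' hsub hs => ((e L').1 (h L' hsub (smallDim_mono
          Finset.subset_union_left (small_list G hs)))).1,
        h4'.2 fun L' hsub hs => ((e L').1 (h L' hsub (smallDim_mono
          Finset.subset_union_right (small_hodge Ψ hs)))).2⟩

theorem two_separated [IsAlgClosed W.K] {X : ι → 𝒱.Obj} (Z : 𝒱.Obj)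
    (hX : TwoFamily Ψ G X) (hsep : ∀ i, MonApart G (X i) Z ∧ TypeSep Ψ (X i) Z) (n m : ℕ)
    (V : Set (W.H (powN Z n))) (hV : InDegree V m) (L : List ι) :
    MTIn Ψ G X V L ↔ MTIn Ψ G X V [] := by
  classical
  obtain ⟨B, -, h2, h3⟩ := two_general Ψ G (powN Z n) hX
  have h3' := h3 m V hV
  obtain ⟨U, hU, rfl⟩ := hV
  obtain ⟨F, hF1, hF2, hF3⟩ := exists_proj hU
  have e := fun L => mtIn_iff Ψ G (X := X) hF1 hF2 hF3 L
  constructor
  · rw [e L, e []]
    rintro ⟨ha, hb⟩
    exact ⟨sys_sublist (fun i => (hX.middle i).homEqNum) (sp_one hX.sp) (List.nil_sublist L) ha,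
      sys_sublist (fun i => (hX.middle i).homEqNum) (sp_one hX.sp) (List.nil_sublist L) hb⟩
  · intro h
    rw [h3' L]
    intro L' _ hs
    have h5 : L' = [] := by
      rw [List.eq_nil_iff_forall_not_mem]
      exact fun i hi => h2 i (hs.mem i hi) ⟨mon_pow G (hsep i).1 n, typeSep_pow Ψ (hsep i).2 n⟩
    rw [h5]
    exact h

end two

end Pool.Agent.X227.NP
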