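import Pool.Agent.X227.NP.FDefs

/-!
# The variational Hodge conjecture: definition
-/

open CategoryTheory AlgebraicGeometry

universe u

namespace Pool.Agent.X227.NP

open Pool.Agent.H914 Pool.Agent.H914.VarClass Pool.Agent.H914.VarClass.Obj
  Pool.Agent.H914.WeilCohomology Pool.Agent.Y132.AH

variable {k : Type u} [Field k] {𝒱 : VarClass k} {ops : CycleOps 𝒱}
  {W : WeilCohomology.{u, 0} ops} {Γ : Type} [Group Γ]

/-- **The variational Hodge conjecture** (for a given special member) for the family `Y`: all flat
classes of degree `2 j` which are algebraic on the special member are classes of cycles of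
codimension `j` with rational coefficients on the geometric generic member. -/
def VarHodge (D : FamData W) (G : GaloisData W Γ) (Y : 𝒱.Obj) : Prop :=
  ∀ j, flatIn G.χ (G.on Y).act (D.on Y).special j ⊆ algClasses W Y j

end Pool.Agent.X227.NP
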