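import Pool.Agent.X227.NP.Fam
import Pool.Agent.X227.NP.VDefs

/-!
# The variational Hodge conjecture on products
-/

open CategoryTheory AlgebraicGeometry
open Pool.Agent.Y132.EP (DG tow idm map_idm exm map_exm)

universe u

namespace Pool.Agent.X227.NP

open Pool.Agent.H914 Pool.Agent.H914.VarClass Pool.Agent.H914.VarClass.Obj
  Pool.Agent.H914.WeilCohomology Pool.Agent.Y132.AH Pool.Agent.X227.MS Pool.Agent.H281R3.HT
  Pool.Agent.W552 Pool.Agent.TH125.Gal Pool.Agent.Y132.AF Pool.Agent.X227.MM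

variable {k : Type u} [Field k] {𝒱 : VarClass k} {ops : CycleOps 𝒱} {ι : Type}
  {W : WeilCohomology.{u, 0} ops} {Γ : Type} [Group Γ] (D : FamData W) (G : GaloisData W Γ)

theorem cyc_prj {Y : 𝒱.Obj} {y : W.H Y} (hy : y ∈ cyc W Y) (j : ℕ) :
    prj (W.isInternal Y) (2 * j) y ∈ algClasses W Y j := by
  refine cyc_ind (p := fun y => prj (W.isInternal Y) (2 * j) y ∈ algClasses W Y j)
    (fun i y hi => ?_) ?_ ?_ ?_ hy
  · by_cases hij : i = j
    · subst hij
      rw [prj_same _ (alg_gr hi)]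
      exact hi
    · rw [prj_ne _ (by omega) (alg_gr hi)]
      exact alg_zero j
  · rw [map_zero]
    exact alg_zero j
  · intro a b ha hb
    rw [map_add]
    exact alg_add ha hb
  · intro a ha
    rw [map_neg]
    exact alg_neg ha

theorem var_iff [IsAlgClosed W.K] (Y : 𝒱.Obj) :
    VarHodge D G Y ↔ Sub (ofSys (gcls_flat D G).sys) (ofSys gcls_alg.sys) Y LinearMap.id := by
  rw [← ncv_iff' D G (roof_id Y) (fun _ => rfl)]
  constructor
  · intro h y hy _
    have h1 : mixed (flatIn G.χ (G.on Y).act (D.on Y).special) ≤ mixed (algClasses W Y) :=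
      AddSubgroup.closure_mono (Set.iUnion_mono h)
    exact h1 hy
  · intro h j c hc
    have h1 : c ∈ cyc W Y := h c (AddSubgroup.subset_closure (Set.mem_iUnion.2 ⟨j, hc⟩)) rfl
    have h2 := cyc_prj h1 j
    rwa [prj_same _ ((D.on Y).isCls.deg j hc.1)] at h2

theorem var_iso [IsAlgClosed W.K] {A B : 𝒱.Obj} (e : A ≅ B) (h : VarHodge D G A) :
    VarHodge D G B := by
  intro j c hc
  have h1 : W.map e.inv (W.map e.hom c) = c := by
    rw [← W.map_comp, e.inv_hom_id, W.map_id]
  have h2 : IsFlat D G A j (W.map e.hom c) := (gcls_flat D G).map e.hom j c hc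
  rw [← h1]
  exact gcls_alg.map e.inv j _ (h j h2)

theorem var_sub [IsAlgClosed W.K] {X : ι → 𝒱.Obj} {Z : 𝒱.Obj}
    (hX : ∀ i, OddMiddle W (X i)) (hG : BigFamily G X) {L L' : List ι} (hsub : L'.Sublist L)
    (h : VarHodge D G (prodList X Z L)) : VarHodge D G (prodList X Z L') := by
  rw [var_iff] at h ⊢
  have h5 := sys_sublist (ℳ := ofSys (gcls_flat D G).sys) (𝒩 := ofSys gcls_alg.sys)
    (E := (LinearMap.id : W.H Z →ₗ[W.K] W.H Z)) (fun i => (hX i).homEqNum)
    (fun i => one_ne (hG.big i)) hsub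
  rw [listOp_id, listOp_id] at h5
  exact h5 h

/-- **The variational Hodge conjecture on products.** -/
theorem var_general [IsAlgClosed W.K] [DecidableEq ι] {X : ι → 𝒱.Obj} (Z : 𝒱.Obj)
    (hX : ∀ i, OddMiddle W (X i)) (hG : BigFamily G X) :
    ∃ B : Finset ι, ∑ i ∈ B, trDim W (X i) ≤ totDim W Z ∧ (∀ i ∈ B, ¬MonApart G (X i) Z) ∧
      ∀ L : List ι, VarHodge D G (prodList X Z L) ↔
          ∀ L' : List ι, L'.Sublist L → SmallDim W X Z B L' →
            VarHodge D G (prodList X Z L') := by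
  have hX' := bigFamily_ad G hX hG
  obtain ⟨B, h1, h2, h3⟩ := sys_iff (fun Y => G.act Y) (X := X) (Z := Z) hX' (var_graded G Z)
    (fun L Y hY => by
      have h4 := var_tower_eq G hY
      rw [h4])
  refine ⟨B, h1, fun i hi h => not_stable G h (h2 i hi), fun L => ?_⟩
  have h4 := h3 (ofSys (gcls_flat D G).sys) (ofSys gcls_alg.sys) LinearMap.id L
    fun Y E y hy => tateComp_span D G hy.1
  simp only [listOp_id] at h4
  constructor
  · intro h L' hsub _
    exact var_sub D G hX hG hsub h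
  · intro h
    rw [var_iff, h4]
    intro L' hsub hsmall
    rw [← var_iff]
    exact h L' hsub (small_list G hsmall)

theorem var_sep [IsAlgClosed W.K] {X : ι → 𝒱.Obj} (Z : 𝒱.Obj)
    (hX : ∀ i, OddMiddle W (X i)) (hG : BigFamily G X) (hsep : ∀ i, MonApart G (X i) Z)
    (L : List ι) (n : ℕ) :
    VarHodge D G (powN (prodList X Z L) n) ↔ VarHodge D G (powN Z n) := by
  classical
  have key : ∀ (Z : 𝒱.Obj), (∀ i, MonApart G (X i) Z) → ∀ L : List ι,
      VarHodge D G (prodList X Z L) ↔ VarHodge D G Z := by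
    intro Z hsep L
    obtain ⟨B, -, h2, h3⟩ := var_general D G Z hX hG
    refine ⟨fun h => var_sub D G hX hG (List.nil_sublist L) h, fun h => ?_⟩
    rw [h3]
    intro L' _ hs
    have h5 : L' = [] := by
      rw [List.eq_nil_iff_forall_not_mem]
      exact fun i hi => h2 i (hs.mem i hi) (hsep i)
    rw [h5]
    exact h
  obtain ⟨L', ⟨e⟩⟩ := iso_pow X Z L n
  have h3 := key (powN Z n) (fun i => mon_pow G (hsep i) n) L'
  rw [← h3]
  exact ⟨fun h => var_iso D G e h, fun h => var_iso D G e.symm h⟩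

theorem var_products [IsAlgClosed W.K] {X : ι → 𝒱.Obj} {Z : 𝒱.Obj} (hZ : Z.dim = 0)
    (hX : ∀ i, OddMiddle W (X i)) (hG : BigFamily G X) (L : List ι) (n : ℕ) :
    VarHodge D G (powN (prodList X Z L) n) := by
  obtain ⟨L', ⟨e⟩⟩ := iso_pow X Z L n
  refine var_iso D G e.symm ?_
  rw [var_iff]
  exact v_products D G (powN_dim0 hZ n) hX hG L'

end Pool.Agent.X227.NP
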